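import Pool.Agent.H437R2.A8
import Pool.Agent.Q260.LB.A

set_option autoImplicit false

/-!
# The remainder of `∑ Λ(n)/n` and the relative error of the prime number theorem
-/

namespace Pool.Agent.Q260.OS

open MeasureTheory Filter Topology Set
open Pool.Agent.Q260.GM (ph exp_change)
open Pool.Agent.Q213.GM (ph_le)
open Pool.Agent.H437R2 (rr)

/-- the relative error -/
noncomputable def rw' (w : ℝ) : ℝ := ph w * Real.exp (-w)

lemma rw_meas : Measurable rw' := by
  unfold rw'
  exact (Pool.Agent.Q260.LB.ph_meas).mul (by fun_prop)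

lemma rw_bdd : ∃ C : ℝ, 0 ≤ C ∧ ∀ w : ℝ, |rw' w| ≤ C := by
  obtain ⟨C, hC0, hC⟩ := ph_le
  refine ⟨C, hC0, fun w => ?_⟩
  unfold rw'
  rw [abs_mul, abs_of_pos (Real.exp_pos _)]
  calc |ph w| * Real.exp (-w) ≤ C * Real.exp w * Real.exp (-w) :=
        mul_le_mul_of_nonneg_right (hC w) (Real.exp_pos _).le
    _ = C := by rw [mul_assoc, ← Real.exp_add, add_neg_cancel, Real.exp_zero, mul_one]

lemma rw_ii (a b : ℝ) : IntervalIntegrable rw' volume a b := by
  obtain ⟨C, hC0, hC⟩ := rw_bdd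
  have h : IntervalIntegrable (fun _ : ℝ => C) volume a b := intervalIntegrable_const
  exact h.mono_fun' rw_meas.aestronglyMeasurable (ae_of_all _ fun w => hC w)

/-- the integrated relative error -/
noncomputable def Qw (w : ℝ) : ℝ := -(1 + Real.eulerMascheroniConstant) - ∫ t in (0 : ℝ)..w, rw' t

lemma psi_eq_Iic (y : ℝ) : Chebyshev.psi y = ∑ n ∈ Finset.Iic ⌊y⌋₊, ArithmeticFunction.vonMangoldt n := by
  unfold Chebyshev.psi
  have : Finset.Iic ⌊y⌋₊ = insert 0 (Finset.Ioc 0 ⌊y⌋₊) := by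
    ext k; simp only [Finset.mem_Iic, Finset.mem_insert, Finset.mem_Ioc]; omega
  rw [this, Finset.sum_insert (by simp)]
  simp

lemma psi_one : Chebyshev.psi 1 = 0 := by
  unfold Chebyshev.psi
  simp

/-- partial summation -/
theorem rr_eq {w : ℝ} (hw : 0 ≤ w) : rr w = rw' w - Qw w := by
  have he : 1 ≤ Real.exp w := Real.one_le_exp hw
  have he0 := Real.exp_pos w
  have hd : ∀ t : ℝ, deriv (fun t : ℝ => t⁻¹) t = -(t ^ 2)⁻¹ := fun t => by simp
  have hcont : ContinuousOn (fun t : ℝ => -(t ^ 2)⁻¹) (Icc 1 (Real.exp w)) := by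
    intro t ht
    have : t ≠ 0 := by linarith [ht.1]
    refine ContinuousAt.continuousWithinAt ?_
    fun_prop (disch := positivity)
  have hab := sum_mul_eq_sub_sub_integral_mul (fun n => ArithmeticFunction.vonMangoldt n)
    (f := fun t : ℝ => t⁻¹) (zero_le_one' ℝ) he (fun t ht => by
      have : t ≠ 0 := by linarith [ht.1]
      fun_prop (disch := assumption)) (by
      refine (hcont.integrableOn_Icc).congr_fun (fun t _ => (hd t).symm) measurableSet_Icc)
  have hI : ∫ t in Ioc 1 (Real.exp w), deriv (fun t : ℝ => t⁻¹) t *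
      ∑ k ∈ Finset.Icc 0 ⌊t⌋₊, ArithmeticFunction.vonMangoldt k =
      -∫ t in (1 : ℝ)..(Real.exp w), (t ^ 2)⁻¹ * Chebyshev.psi t := by
    rw [intervalIntegral.integral_of_le he, ← integral_neg]
    refine setIntegral_congr_fun measurableSet_Ioc fun t _ => ?_
    show deriv (fun t : ℝ => t⁻¹) t * ∑ k ∈ Finset.Icc 0 ⌊t⌋₊, ArithmeticFunction.vonMangoldt k =
      -((t ^ 2)⁻¹ * Chebyshev.psi t)
    rw [hd, ← Pool.Agent.H437R2.Iic_eq_Icc, ← psi_eq_Iic]
    ring
  have hR : ∑ n ∈ Finset.Iic ⌊Real.exp w⌋₊, ArithmeticFunction.vonMangoldt n / n =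
      ∑ k ∈ Finset.Ioc ⌊(1 : ℝ)⌋₊ ⌊Real.exp w⌋₊, (k : ℝ)⁻¹ * ArithmeticFunction.vonMangoldt k := by
    have hfl : 1 ≤ ⌊Real.exp w⌋₊ := Nat.le_floor (by exact_mod_cast he)
    have h1 : Finset.Iic ⌊Real.exp w⌋₊ = Finset.Iic 1 ∪ Finset.Ioc 1 ⌊Real.exp w⌋₊ := by
      ext k
      simp only [Finset.mem_union, Finset.mem_Iic, Finset.mem_Ioc]
      omega
    have h2 : Disjoint (Finset.Iic 1) (Finset.Ioc 1 ⌊Real.exp w⌋₊) := by
      rw [Finset.disjoint_left]
      intro k hk hk2
      rw [Finset.mem_Iic] at hk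
      rw [Finset.mem_Ioc] at hk2
      omega
    rw [h1, Finset.sum_union h2, Nat.floor_one]
    have h3 : ∑ n ∈ Finset.Iic 1, ArithmeticFunction.vonMangoldt n / n = (0 : ℝ) := by
      have : Finset.Iic 1 = ({0, 1} : Finset ℕ) := by ext k; simp; omega
      rw [this]
      simp
    rw [h3, zero_add]
    refine Finset.sum_congr rfl fun k _ => ?_
    rw [div_eq_inv_mul]
  have hsub : ∫ t in (1 : ℝ)..(Real.exp w), (t ^ 2)⁻¹ * Chebyshev.psi t =
      (∫ t in (0 : ℝ)..w, rw' t) + w := by
    have h1 := exp_change (fun t => (t ^ 2)⁻¹ * Chebyshev.psi t) hw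
    rw [Real.exp_zero] at h1
    rw [h1]
    have h2 : ∫ u in (0 : ℝ)..w, Real.exp u * ((Real.exp u ^ 2)⁻¹ * Chebyshev.psi (Real.exp u)) =
        ∫ u in (0 : ℝ)..w, (rw' u + 1) := by
      refine intervalIntegral.integral_congr fun u _ => ?_
      show Real.exp u * ((Real.exp u ^ 2)⁻¹ * Chebyshev.psi (Real.exp u)) = rw' u + 1
      unfold rw' ph
      rw [Real.exp_neg]
      have := (Real.exp_pos u).ne'
      field_simp
      ring
    rw [h2, intervalIntegral.integral_add (rw_ii _ _) intervalIntegrable_const]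
    simp
  unfold rr
  rw [hR, hab, hI, hsub]
  rw [← Pool.Agent.H437R2.Iic_eq_Icc, ← Pool.Agent.H437R2.Iic_eq_Icc, ← psi_eq_Iic, ← psi_eq_Iic, psi_one]
  unfold Qw rw' ph
  rw [Real.exp_neg]
  have := he0.ne'
  field_simp
  ring

lemma rr_meas : Measurable rr := by
  unfold rr
  have h1 : Measurable (fun n : ℕ => ∑ k ∈ Finset.Iic n, ArithmeticFunction.vonMangoldt k / k) :=
    measurable_from_nat
  exact ((h1.comp (Nat.measurable_floor.comp Real.measurable_exp)).sub measurable_id).add_const _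

lemma rw_right (w : ℝ) : ContinuousWithinAt rw' (Ioi w) w := by
  have hfl : Real.exp w < (⌊Real.exp w⌋₊ : ℝ) + 1 := Nat.lt_floor_add_one _
  have h1 : ∀ᶠ v in 𝓝 w, Real.exp v < (⌊Real.exp w⌋₊ : ℝ) + 1 :=
    (Real.continuous_exp.tendsto w).eventually (gt_mem_nhds hfl)
  have h2 : ∀ᶠ v in 𝓝[Ioi w] w, (Chebyshev.psi (Real.exp w) - Real.exp v) * Real.exp (-v) = rw' v := by
    filter_upwards [mem_nhdsWithin_of_mem_nhds h1, self_mem_nhdsWithin] with v hv hv0
    have hv0' : w < v := hv0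
    unfold rw' ph
    have h3 : Chebyshev.psi (Real.exp v) = Chebyshev.psi (Real.exp w) := by
      rw [Chebyshev.psi_eq_psi_coe_floor, Chebyshev.psi_eq_psi_coe_floor (Real.exp w)]
      congr 2
      refine le_antisymm ?_ (Nat.floor_mono (Real.exp_le_exp.2 (by linarith)))
      rw [← Nat.lt_succ_iff, Nat.floor_lt (Real.exp_pos _).le]
      push_cast
      exact hv
    rw [h3]
  have h4 : Continuous (fun v : ℝ => (Chebyshev.psi (Real.exp w) - Real.exp v) * Real.exp (-v)) := by
    fun_prop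
  have h5 : Tendsto (fun v : ℝ => (Chebyshev.psi (Real.exp w) - Real.exp v) * Real.exp (-v))
      (𝓝[Ioi w] w) (𝓝 (rw' w)) := (h4.tendsto w).mono_left nhdsWithin_le_nhds
  exact h5.congr' h2

lemma Q_cont : Continuous Qw := by
  unfold Qw
  exact continuous_const.sub (intervalIntegral.continuous_primitive (fun a b => rw_ii a b) 0)

lemma Q_right (w : ℝ) : HasDerivWithinAt Qw (-rw' w) (Ioi w) w := by
  have h1 : HasDerivWithinAt (fun u => ∫ t in (0 : ℝ)..u, rw' t) (rw' w) (Ici w) w :=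
    intervalIntegral.integral_hasDerivWithinAt_right (rw_ii 0 w)
      (rw_meas.stronglyMeasurable.stronglyMeasurableAtFilter) (rw_right w)
  have h2 := (h1.const_sub (-(1 + Real.eulerMascheroniConstant))).mono Ioi_subset_Ici_self
  exact h2

/-- the differential equation in integrated form -/
theorem Q_ode {u c : ℝ} (hu : 0 ≤ u) (hc : 0 ≤ c) :
    Real.exp u * Qw (u + c) - Qw c = -∫ t in (0 : ℝ)..u, Real.exp t * rr (t + c) := by
  have hF : ∀ t ∈ Ioo (min 0 u) (max 0 u), HasDerivWithinAt (fun t => Real.exp t * Qw (t + c))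
      (Real.exp t * (Qw (t + c) - rw' (t + c))) (Ioi t) t := by
    intro t _
    have h1 : HasDerivWithinAt (fun t => Qw (t + c)) (-rw' (t + c)) (Ioi t) t := by
      have h2 := (Q_right (t + c)).comp (h := fun s : ℝ => s + c) (h' := 1) t
        ((hasDerivWithinAt_id t _).add_const c) (fun s hs => by
          show t + c < s + c
          have : t < s := hs
          linarith)
      rw [mul_one] at h2
      exact h2
    have h3 := ((Real.hasDerivAt_exp t).hasDerivWithinAt (s := Ioi t)).mul h1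
    refine h3.congr_deriv ?_
    ring
  have hint : IntervalIntegrable (fun t => Real.exp t * (Qw (t + c) - rw' (t + c))) volume 0 u := by
    have h1 : IntervalIntegrable (fun t => Qw (t + c) - rw' (t + c)) volume 0 u := by
      refine IntervalIntegrable.sub ?_ ?_
      · exact ((Q_cont.comp (by fun_prop : Continuous fun t : ℝ => t + c))).intervalIntegrable _ _
      · have := (rw_ii (0 + c) (u + c)).comp_add_right c
        simpa using this
    exact h1.continuousOn_mul (by fun_prop)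
  have h := intervalIntegral.integral_eq_sub_of_hasDeriv_right
    (f := fun t => Real.exp t * Qw (t + c)) (a := 0) (b := u)
    ((Real.continuous_exp.mul (Q_cont.comp (by fun_prop : Continuous fun t : ℝ => t + c))).continuousOn)
    hF hint
  have h2 : ∫ t in (0 : ℝ)..u, Real.exp t * rr (t + c) =
      -∫ t in (0 : ℝ)..u, Real.exp t * (Qw (t + c) - rw' (t + c)) := by
    rw [← intervalIntegral.integral_neg]
    refine intervalIntegral.integral_congr fun t ht => ?_
    rw [uIcc_of_le hu] at ht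
    show Real.exp t * rr (t + c) = -(Real.exp t * (Qw (t + c) - rw' (t + c)))
    rw [rr_eq (by linarith [ht.1])]
    ring
  rw [h2, h]
  simp

end Pool.Agent.Q260.OS
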