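import Pool.Agent.Q260.OS.A

set_option autoImplicit false

/-!
# The averaging measure
-/

namespace Pool.Agent.Q260.OS

open MeasureTheory Filter Topology Set
open Pool.Agent.H437R2

lemma rr_ii {a b : ℝ} (ha : 0 ≤ a) (hb : 0 ≤ b) : IntervalIntegrable rr volume a b := by
  have h : IntervalIntegrable (fun w => rw' w - Qw w) volume a b :=
    (rw_ii a b).sub (Q_cont.intervalIntegrable _ _)
  refine h.congr ?_
  intro w hw
  have : 0 ≤ w := by
    rcases le_total a b with h1 | h1
    · rw [uIoc_of_le h1] at hw; linarith [hw.1]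
    · rw [uIoc_of_ge h1] at hw; linarith [hw.1]
  exact (rr_eq this).symm

lemma WW_eq {u : ℝ} (hu : 0 ≤ u) : WW u = ∫ s in (0 : ℝ)..1, ∫ t in (0 : ℝ)..1, rr (u + s + t) := by
  set N : ℕ := ⌈Real.exp (u + 3)⌉₊ + 1 with hN
  have hN1 : 1 ≤ N := by omega
  have hN0 : (0:ℝ) < N := by exact_mod_cast hN1
  have hlog : u + 3 < Real.log N := by
    rw [Real.lt_log_iff_exp_lt hN0, hN]
    push_cast
    have := Nat.le_ceil (Real.exp (u + 3))
    linarith
  have step1 : ∀ x ∈ Icc u (u + 1), SN 1 N (x + 1) - SN 1 N x = ∫ t in x..(x + 1), rr t := by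
    intro x hx
    have h := intervalIntegral.integral_eq_sub_of_hasDeriv_right (f := SN 1 N) (f' := rr)
      (a := x) (b := x + 1) (SN_cont 1 N).continuousOn (fun t ht => by
        rw [min_eq_left (by linarith), max_eq_right (by linarith)] at ht
        have h1 := SN_right 0 N 0 t
        simp only [add_zero, zero_add] at h1
        rw [DN_zero_eq hN1 (by linarith [hx.1, ht.1]) (by linarith [hx.2, ht.2])] at h1
        exact h1.mono Ioi_subset_Ici_self) (rr_ii (by linarith [hx.1]) (by linarith [hx.1]))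
    exact h.symm
  have h2 := intervalIntegral.integral_eq_sub_of_hasDeriv_right
      (f := fun t => SN 2 N (t + 1) - SN 2 N t) (f' := fun t => SN 1 N (t + 1) - SN 1 N t)
      (a := u) (b := u + 1) (by
        have := SN_cont 2 N
        fun_prop) (fun t _ => by
        have h3 := SN_right 1 N 1 t
        have h4 := SN_right 1 N 0 t
        simp only [add_zero] at h4
        rw [← SN_eq_DN one_ne_zero] at h3 h4
        exact (h3.sub h4).mono Ioi_subset_Ici_self) (by
        have := SN_cont 1 N
        exact (by fun_prop : Continuous fun t => SN 1 N (t + 1) - SN 1 N t).intervalIntegrable _ _)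
  have e : WW u = (SN 2 N (u + 1 + 1) - SN 2 N (u + 1)) - (SN 2 N (u + 1) - SN 2 N u) := by
    unfold WW
    rw [S2_eq_SN hN1 (by linarith : u + 2 ≤ Real.log N), S2_eq_SN hN1 (by linarith : u + 1 ≤ Real.log N),
      S2_eq_SN hN1 (by linarith : u ≤ Real.log N)]
    have : u + 1 + 1 = u + 2 := by ring
    rw [this]
    ring
  rw [e, ← h2]
  have h3 : ∫ t in u..(u + 1), (SN 1 N (t + 1) - SN 1 N t) = ∫ t in u..(u + 1), ∫ x in t..(t + 1), rr x := by
    refine intervalIntegral.integral_congr fun t ht => ?_
    rw [uIcc_of_le (by linarith)] at ht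
    exact step1 t ht
  rw [h3]
  have h4 := intervalIntegral.integral_comp_add_left (a := 0) (b := 1) (fun t => ∫ x in t..(t + 1), rr x) u
  rw [add_zero] at h4
  rw [← h4]
  refine intervalIntegral.integral_congr fun s _ => ?_
  have h5 := intervalIntegral.integral_comp_add_left (a := 0) (b := 1) rr (u + s)
  rw [add_zero] at h5
  exact h5.symm

/-- the uniform measure on the unit square, summed and shifted -/
noncomputable def tnt (c : ℝ) : Measure ℝ :=
  Measure.map (fun p : ℝ × ℝ => c + p.1 + p.2)
    ((volume.restrict (Ioc (0 : ℝ) 1)).prod (volume.restrict (Ioc (0 : ℝ) 1)))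

instance (c : ℝ) : IsProbabilityMeasure (tnt c) := by
  unfold tnt
  have h1 : IsProbabilityMeasure (volume.restrict (Ioc (0 : ℝ) 1)) := ⟨by simp⟩
  exact Measure.isProbabilityMeasure_map (by fun_prop)

/-- the averaging measure -/
noncomputable def nu (Z : Finset ℂ) : Measure ℝ :=
  ∑ A ∈ Z.powerset, ENNReal.ofReal (cc Z A) • tnt (∑ ρ ∈ A, hst ρ)

instance (Z : Finset ℂ) : IsProbabilityMeasure (nu Z) := by
  constructor
  unfold nu
  rw [Measure.finsetSum_apply]
  simp only [Measure.smul_apply, measure_univ, smul_eq_mul, mul_one]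
  rw [← ENNReal.ofReal_sum_of_nonneg fun A _ => cc_nonneg Z A, cc_sum, ENNReal.ofReal_one]

end Pool.Agent.Q260.OS
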