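import Pool.Agent.Q260.OS.B

set_option autoImplicit false

/-!
# The averages of the relative error
-/

namespace Pool.Agent.Q260.OS

open MeasureTheory Filter Topology Set
open Pool.Agent.H437R2

/-- the length of the window -/
noncomputable def Lw : ℝ := Real.pi * SS + 2

lemma Lw_pos : 0 < Lw := by
  unfold Lw
  have := Real.pi_pos
  have := SS_pos
  positivity

lemma shift_nonneg (A : Finset ℂ) : 0 ≤ ∑ ρ ∈ A, hst ρ := Finset.sum_nonneg fun ρ _ => hst_nonneg ρ

lemma shift_le {T : ℝ} {A : Finset ℂ} (hA : A ∈ (ZT T).powerset) : ∑ ρ ∈ A, hst ρ ≤ Lw - 2 := by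
  rw [Finset.mem_powerset] at hA
  unfold Lw
  rw [add_sub_cancel_right]
  exact sum_hst (SS_spec A fun ρ hρ => ZT_IsZ (hA hρ))

lemma tnt_supp (c : ℝ) : ∀ᵐ y ∂(tnt c), c ≤ y ∧ y ≤ c + 2 := by
  unfold tnt
  rw [ae_map_iff (by fun_prop) (by
    exact (measurableSet_Icc : MeasurableSet (Icc c (c + 2))))]
  rw [Measure.prod_restrict]
  refine (ae_restrict_mem (measurableSet_Ioc.prod measurableSet_Ioc)).mono fun p hp => ?_
  obtain ⟨⟨h1, h2⟩, h3, h4⟩ := hp
  constructor <;> linarith

lemma nu_supp (T : ℝ) : ∀ᵐ y ∂(nu (ZT T)), 0 ≤ y ∧ y ≤ Lw := by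
  rw [ae_iff]
  unfold nu
  rw [Measure.finsetSum_apply]
  refine Finset.sum_eq_zero fun A hA => ?_
  rw [Measure.smul_apply]
  have h1 : (tnt (∑ ρ ∈ A, hst ρ)) {a | ¬(0 ≤ a ∧ a ≤ Lw)} = 0 := by
    have h2 := tnt_supp (∑ ρ ∈ A, hst ρ)
    have h3 : ∀ᵐ y ∂(tnt (∑ ρ ∈ A, hst ρ)), 0 ≤ y ∧ y ≤ Lw := by
      filter_upwards [h2] with y hy
      have h4 := shift_nonneg A
      have h5 := shift_le hA
      constructor <;> linarith [hy.1, hy.2]
    exact h3
  rw [h1, smul_zero]

lemma nu_int {T K : ℝ} {g : ℝ → ℝ} (hg : Measurable g) (hK : ∀ y ∈ Icc 0 Lw, |g y| ≤ K) :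
    Integrable g (nu (ZT T)) := by
  refine Integrable.of_bound hg.aestronglyMeasurable K ?_
  filter_upwards [nu_supp T] with y hy
  exact hK y hy

lemma tnt_integral {T K : ℝ} {g : ℝ → ℝ} (hg : Measurable g) (hK : ∀ y ∈ Icc 0 Lw, |g y| ≤ K)
    {A : Finset ℂ} (hA : A ∈ (ZT T).powerset) :
    Integrable g (tnt (∑ ρ ∈ A, hst ρ)) ∧ ∫ y, g y ∂(tnt (∑ ρ ∈ A, hst ρ)) =
      ∫ s in (0 : ℝ)..1, ∫ t in (0 : ℝ)..1, g ((∑ ρ ∈ A, hst ρ) + s + t) := by
  set c := ∑ ρ ∈ A, hst ρ with hc
  have h4 := shift_nonneg A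
  have h5 := shift_le hA
  have hi : Integrable g (tnt c) := by
    refine Integrable.of_bound hg.aestronglyMeasurable K ?_
    filter_upwards [tnt_supp c] with y hy
    exact hK y ⟨by linarith [hy.1], by linarith [hy.2]⟩
  refine ⟨hi, ?_⟩
  unfold tnt at hi ⊢
  have hm : Measurable (fun p : ℝ × ℝ => c + p.1 + p.2) := by fun_prop
  rw [integral_map hm.aemeasurable hg.aestronglyMeasurable]
  rw [integrable_map_measure hg.aestronglyMeasurable hm.aemeasurable] at hi
  have hp := integral_prod (g ∘ fun p : ℝ × ℝ => c + p.1 + p.2) hi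
  simp only [intervalIntegral.integral_of_le zero_le_one]
  exact hp

lemma nu_integral {T K : ℝ} {g : ℝ → ℝ} (hg : Measurable g) (hK : ∀ y ∈ Icc 0 Lw, |g y| ≤ K) :
    ∫ y, g y ∂(nu (ZT T)) = ∑ A ∈ (ZT T).powerset, cc (ZT T) A *
      ∫ s in (0 : ℝ)..1, ∫ t in (0 : ℝ)..1, g ((∑ ρ ∈ A, hst ρ) + s + t) := by
  unfold nu
  rw [integral_finsetSum_measure]
  · refine Finset.sum_congr rfl fun A hA => ?_
    rw [integral_smul_measure, (tnt_integral hg hK hA).2, ENNReal.toReal_ofReal (cc_nonneg _ _), smul_eq_mul]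
  · intro A hA
    exact (tnt_integral hg hK hA).1.smul_measure ENNReal.ofReal_ne_top

lemma Q_abs {C : ℝ} (hC : ∀ w, |rw' w| ≤ C) {w : ℝ} (hw : 0 ≤ w) :
    |Qw w| ≤ 1 + Real.eulerMascheroniConstant + C * w := by
  have hγ := Real.one_half_lt_eulerMascheroniConstant
  have h1 : |∫ t in (0 : ℝ)..w, rw' t| ≤ C * w := by
    have := intervalIntegral.norm_integral_le_of_norm_le_const (a := 0) (b := w) (f := rw') (C := C)
      (fun t _ => hC t)
    rwa [sub_zero, abs_of_nonneg hw] at this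
  unfold Qw
  refine (abs_sub _ _).trans ?_
  rw [abs_neg, abs_of_pos (by linarith)]
  linarith

lemma rr_abs {C : ℝ} (hC : ∀ w, |rw' w| ≤ C) {w : ℝ} (hw : 0 ≤ w) :
    |rr w| ≤ C + (1 + Real.eulerMascheroniConstant + C * w) := by
  rw [rr_eq hw]
  exact (abs_sub _ _).trans (add_le_add (hC w) (Q_abs hC hw))

/-- the average of the remainder -/
lemma VV_eq {T u : ℝ} (hu : 0 ≤ u) : VV (ZT T) u = ∫ c, rr (u + c) ∂(nu (ZT T)) := by
  obtain ⟨C, hC0, hC⟩ := rw_bdd
  have hγ := Real.one_half_lt_eulerMascheroniConstant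
  have hm : Measurable fun c => rr (u + c) := rr_meas.comp (by fun_prop)
  have hn := nu_integral (T := T) (K := C + (1 + Real.eulerMascheroniConstant + C * (u + Lw)))
    hm (fun y hy => (rr_abs hC (by linarith [hy.1])).trans (by
      have : C * (u + y) ≤ C * (u + Lw) := mul_le_mul_of_nonneg_left (by linarith [hy.2]) hC0
      linarith))
  rw [hn]
  unfold VV
  refine Finset.sum_congr rfl fun A _ => ?_
  rw [WW_eq (by have := shift_nonneg A; linarith)]
  congr 1
  refine intervalIntegral.integral_congr fun s _ => ?_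
  refine intervalIntegral.integral_congr fun t _ => ?_
  show rr (u + ∑ ρ ∈ A, hst ρ + s + t) = rr (u + (∑ ρ ∈ A, hst ρ + s + t))
  congr 1
  ring

/-- **the average of the relative error** -/
theorem r_avg : ∃ C : ℝ, 0 < C ∧ ∀ u T : ℝ, 0 ≤ u → 1 ≤ T →
    |∫ c, rw' (u + c) ∂(nu (ZT T))| ≤ C * (Real.exp (-(u / 4)) + Real.exp u / T) := by
  obtain ⟨C, hC0, hC⟩ := rw_bdd
  obtain ⟨C1, hC1, hV⟩ := V_bound
  have hγ := Real.one_half_lt_eulerMascheroniConstant
  have hL := Lw_pos
  set K0 : ℝ := 1 + Real.eulerMascheroniConstant + C * Lw with hK0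
  have hK00 : 0 < K0 := by positivity
  refine ⟨K0 + 3 * C1, by positivity, fun u T hu hT => ?_⟩
  have hT0 : 0 < T := by linarith
  set ν := nu (ZT T) with hν
  -- integrability
  have iQ : ∀ v : ℝ, 0 ≤ v → Integrable (fun c => Qw (v + c)) ν := fun v hv =>
    nu_int (K := 1 + Real.eulerMascheroniConstant + C * (v + Lw)) (Q_cont.measurable.comp (by fun_prop))
      (fun y hy => (Q_abs hC (by linarith [hy.1])).trans (by
        have : C * (v + y) ≤ C * (v + Lw) := mul_le_mul_of_nonneg_left (by linarith [hy.2]) hC0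
        linarith))
  have iR : ∀ v : ℝ, 0 ≤ v → Integrable (fun c => rr (v + c)) ν := fun v hv =>
    nu_int (K := C + (1 + Real.eulerMascheroniConstant + C * (v + Lw))) (rr_meas.comp (by fun_prop))
      (fun y hy => (rr_abs hC (by linarith [hy.1])).trans (by
        have : C * (v + y) ≤ C * (v + Lw) := mul_le_mul_of_nonneg_left (by linarith [hy.2]) hC0
        linarith))
  -- the equation
  have e1 : Real.exp u * ∫ c, Qw (u + c) ∂ν - ∫ c, Qw c ∂ν =
      -∫ t in (0 : ℝ)..u, Real.exp t * VV (ZT T) t := by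
    have h1 : ∫ c, (Real.exp u * Qw (u + c) - Qw c) ∂ν =
        ∫ c, (-∫ t in (0 : ℝ)..u, Real.exp t * rr (t + c)) ∂ν := by
      refine integral_congr_ae ?_
      filter_upwards [nu_supp T] with c hc
      exact Q_ode hu hc.1
    have iQ0 := iQ 0 le_rfl
    simp only [zero_add] at iQ0
    rw [integral_sub ((iQ u hu).const_mul _) iQ0, integral_const_mul, integral_neg] at h1
    rw [h1]
    congr 1
    -- Fubini
    have hint : Integrable (Function.uncurry fun (c t : ℝ) => Real.exp t * rr (t + c))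
        (ν.prod (volume.restrict (Ioc 0 u))) := by
      have hm : Measurable (Function.uncurry fun (c t : ℝ) => Real.exp t * rr (t + c)) :=
        (by fun_prop : Measurable fun p : ℝ × ℝ => Real.exp p.2).mul (rr_meas.comp (by fun_prop))
      refine Integrable.of_bound hm.aestronglyMeasurable
        (Real.exp u * (C + (1 + Real.eulerMascheroniConstant + C * (u + Lw)))) ?_
      have a1 : ∀ᵐ p ∂(ν.prod (volume.restrict (Ioc 0 u))), 0 ≤ p.1 ∧ p.1 ≤ Lw := by
        have := Measure.quasiMeasurePreserving_fst (μ := ν) (ν := volume.restrict (Ioc 0 u))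
        exact this.ae (nu_supp T)
      have a2 : ∀ᵐ p ∂(ν.prod (volume.restrict (Ioc 0 u))), p.2 ∈ Ioc 0 u := by
        have := Measure.quasiMeasurePreserving_snd (μ := ν) (ν := volume.restrict (Ioc 0 u))
        exact this.ae (ae_restrict_mem measurableSet_Ioc)
      filter_upwards [a1, a2] with p h1 h2
      show ‖Real.exp p.2 * rr (p.2 + p.1)‖ ≤ _
      rw [norm_mul, Real.norm_of_nonneg (Real.exp_pos _).le, Real.norm_eq_abs]
      apply mul_le_mul (Real.exp_le_exp.2 h2.2) _ (abs_nonneg _) (Real.exp_pos _).le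
      refine (rr_abs hC (by linarith [h1.1, h2.1])).trans ?_
      have : C * (p.2 + p.1) ≤ C * (u + Lw) := mul_le_mul_of_nonneg_left (by linarith [h1.2, h2.2]) hC0
      linarith
    have h2 := integral_integral_swap hint
    simp only [intervalIntegral.integral_of_le hu]
    rw [h2]
    refine setIntegral_congr_fun measurableSet_Ioc fun t ht => ?_
    show ∫ c, Real.exp t * rr (t + c) ∂ν = Real.exp t * VV (ZT T) t
    rw [integral_const_mul, VV_eq ht.1.le]
  -- the bound for the right side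
  have e2 : |∫ t in (0 : ℝ)..u, Real.exp t * VV (ZT T) t| ≤
      2 * C1 * Real.exp (3 / 4 * u) + C1 * Real.exp (2 * u) / T := by
    have hb : ∀ t ∈ Ioc 0 u, ‖Real.exp t * VV (ZT T) t‖ ≤ C1 * Real.exp (3 / 4 * t) + C1 / T * Real.exp (2 * t) := by
      intro t ht
      rw [norm_mul, Real.norm_of_nonneg (Real.exp_pos _).le, Real.norm_eq_abs]
      have h1 := mul_le_mul_of_nonneg_left (hV T t hT ht.1.le) (Real.exp_pos t).le
      refine h1.trans (le_of_eq ?_)
      have e3 : Real.exp t * Real.exp (-(t / 4)) = Real.exp (3 / 4 * t) := by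
        rw [← Real.exp_add]; ring_nf
      have e4 : Real.exp t * Real.exp t = Real.exp (2 * t) := by
        rw [← Real.exp_add]; ring_nf
      calc Real.exp t * (C1 * Real.exp (-(t / 4)) + C1 * Real.exp t / T) =
            C1 * (Real.exp t * Real.exp (-(t / 4))) + C1 / T * (Real.exp t * Real.exp t) := by ring
        _ = _ := by rw [e3, e4]
    rw [intervalIntegral.integral_of_le hu, ← Real.norm_eq_abs]
    have hci : IntegrableOn (fun t => C1 * Real.exp (3 / 4 * t) + C1 / T * Real.exp (2 * t)) (Ioc 0 u) :=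
      (by fun_prop : Continuous fun t => C1 * Real.exp (3 / 4 * t) + C1 / T * Real.exp (2 * t)).integrableOn_Ioc
    refine (norm_integral_le_of_norm_le hci ((ae_restrict_mem measurableSet_Ioc).mono fun t ht => hb t ht)).trans ?_
    rw [← intervalIntegral.integral_of_le hu]
    have hd : ∀ x ∈ uIcc 0 u, HasDerivAt (fun t => C1 * (4 / 3) * Real.exp (3 / 4 * t) + C1 / T * (1 / 2) * Real.exp (2 * t))
        (C1 * Real.exp (3 / 4 * x) + C1 / T * Real.exp (2 * x)) x := by
      intro x _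
      have h1 : HasDerivAt (fun t : ℝ => Real.exp (3 / 4 * t)) (Real.exp (3 / 4 * x) * (3 / 4)) x := by
        have := ((hasDerivAt_id x).const_mul (3 / 4 : ℝ)).exp
        simpa using this
      have h2 : HasDerivAt (fun t : ℝ => Real.exp (2 * t)) (Real.exp (2 * x) * 2) x := by
        have := ((hasDerivAt_id x).const_mul (2 : ℝ)).exp
        simpa using this
      have h3 := (h1.const_mul (C1 * (4 / 3))).add (h2.const_mul (C1 / T * (1 / 2)))
      refine h3.congr_deriv ?_
      ring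
    rw [intervalIntegral.integral_eq_sub_of_hasDerivAt hd
      ((by fun_prop : Continuous fun t => C1 * Real.exp (3 / 4 * t) + C1 / T * Real.exp (2 * t)).intervalIntegrable _ _)]
    simp only [mul_zero, Real.exp_zero, mul_one]
    have p1 := Real.exp_pos (3 / 4 * u)
    have p2 := Real.exp_pos (2 * u)
    have p3 : 0 < C1 / T := by positivity
    have e5 : C1 * Real.exp (2 * u) / T = C1 / T * Real.exp (2 * u) := by ring
    rw [e5]
    nlinarith [mul_pos hC1 p1, mul_pos p3 p2]
  have e3 : |∫ c, Qw c ∂ν| ≤ K0 := by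
    have h1 : ∀ᵐ c ∂ν, ‖Qw c‖ ≤ K0 := by
      filter_upwards [nu_supp T] with c hc
      refine (Q_abs hC hc.1).trans ?_
      have : C * c ≤ C * Lw := mul_le_mul_of_nonneg_left hc.2 hC0
      rw [hK0]; linarith
    have := norm_integral_le_of_norm_le_const h1
    simpa using this
  have hE := Real.exp_pos u
  have e4 : |∫ c, Qw (u + c) ∂ν| ≤ K0 * Real.exp (-u) + 2 * C1 * Real.exp (-(u / 4)) + C1 * Real.exp u / T := by
    have h1 : Real.exp u * |∫ c, Qw (u + c) ∂ν| ≤
        K0 + (2 * C1 * Real.exp (3 / 4 * u) + C1 * Real.exp (2 * u) / T) := by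
      have h2 : Real.exp u * ∫ c, Qw (u + c) ∂ν = ∫ c, Qw c ∂ν -
          ∫ t in (0 : ℝ)..u, Real.exp t * VV (ZT T) t := by linarith
      have h2' : Real.exp u * |∫ c, Qw (u + c) ∂ν| = |Real.exp u * ∫ c, Qw (u + c) ∂ν| := by
        rw [abs_mul, abs_of_pos hE]
      rw [h2', h2]
      exact (abs_sub _ _).trans (add_le_add e3 e2)
    have h3 : K0 + (2 * C1 * Real.exp (3 / 4 * u) + C1 * Real.exp (2 * u) / T) =
        Real.exp u * (K0 * Real.exp (-u) + 2 * C1 * Real.exp (-(u / 4)) + C1 * Real.exp u / T) := by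
      have a1 : Real.exp u * Real.exp (-u) = 1 := by rw [← Real.exp_add]; simp
      have a2 : Real.exp u * Real.exp (-(u / 4)) = Real.exp (3 / 4 * u) := by
        rw [← Real.exp_add]; ring_nf
      have a3 : Real.exp u * Real.exp u = Real.exp (2 * u) := by
        rw [← Real.exp_add]; ring_nf
      calc K0 + (2 * C1 * Real.exp (3 / 4 * u) + C1 * Real.exp (2 * u) / T) =
            K0 * 1 + (2 * C1 * Real.exp (3 / 4 * u) + C1 * Real.exp (2 * u) / T) := by ring
        _ = K0 * (Real.exp u * Real.exp (-u)) + (2 * C1 * (Real.exp u * Real.exp (-(u / 4))) +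
            C1 * (Real.exp u * Real.exp u) / T) := by rw [a1, a2, a3]
        _ = _ := by ring
    rw [h3] at h1
    exact le_of_mul_le_mul_left h1 hE
  have e5 : ∫ c, rw' (u + c) ∂ν = VV (ZT T) u + ∫ c, Qw (u + c) ∂ν := by
    rw [VV_eq hu, ← integral_add (iR u hu) (iQ u hu)]
    refine integral_congr_ae ?_
    filter_upwards [nu_supp T] with c hc
    rw [rr_eq (by linarith [hc.1])]
    ring
  rw [e5]
  refine (abs_add_le _ _).trans ?_
  have h6 := hV T u hT hu
  have h7 : Real.exp (-u) ≤ Real.exp (-(u / 4)) := Real.exp_le_exp.2 (by linarith)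
  have h8 : 0 ≤ Real.exp u / T := by positivity
  have h9 := Real.exp_pos (-(u / 4))
  have e6 : C1 * Real.exp u / T = C1 * (Real.exp u / T) := by ring
  rw [e6] at h6 e4
  have h10 := mul_le_mul_of_nonneg_left h7 hK00.le
  nlinarith [mul_nonneg hC1.le h8, mul_nonneg hK00.le h8, mul_pos hC1 h9]

end Pool.Agent.Q260.OS
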