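import Pool.Agent.Q260.OS.C

set_option autoImplicit false

/-!
# Oscillations of `ψ(x) - x` in short windows
-/

namespace Pool.Agent.Q260.OS

open MeasureTheory Filter Topology Set
open Pool.Agent.H437R2
open Pool.Agent.Q260.GM (ph exp_change)
open Pool.Agent.Q213.GM (ph_le)
open Pool.Agent.Q260.LB (ph_meas ph_ii)

/-- the number of positions -/
noncomputable def Jw : ℕ := ⌊8 * (Lw - 2)⌋₊

lemma Lw_ge : 2 ≤ Lw := by
  unfold Lw
  have := Real.pi_pos
  have := SS_pos
  have : 0 < Real.pi * SS := by positivity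
  linarith

lemma Jw_le : ((Jw : ℝ) + 10) / 8 ≤ Lw := by
  have h : (Jw : ℝ) ≤ 8 * (Lw - 2) := Nat.floor_le (by linarith [Lw_ge])
  linarith

lemma gii {g : ℝ → ℝ} {K : ℝ} (hg : Measurable g) (hK : ∀ y, |g y| ≤ K) (a b : ℝ) :
    IntervalIntegrable g volume a b := by
  have h : IntervalIntegrable (fun _ : ℝ => K) volume a b := intervalIntegrable_const
  exact h.mono_fun' hg.aestronglyMeasurable (ae_of_all _ fun w => hK w)

/-- the square average is at least half the integral over the middle -/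
lemma sq_low {g : ℝ → ℝ} {K a : ℝ} (hg : Measurable g) (hK : ∀ y, |g y| ≤ K)
    (h0 : ∀ y ∈ Icc a (a + 2), 0 ≤ g y) :
    1 / 2 * (∫ y in (a + 3 / 4)..(a + 5 / 4), g y) ≤
      ∫ s in (0 : ℝ)..1, ∫ t in (0 : ℝ)..1, g (a + s + t) := by
  have e : ∀ s : ℝ, ∫ t in (0 : ℝ)..1, g (a + s + t) = ∫ y in (a + s)..(a + s + 1), g y := by
    intro s
    have := intervalIntegral.integral_comp_add_left (a := 0) (b := 1) g (a + s)
    rwa [add_zero] at this
  simp_rw [e]
  have hcont : Continuous fun s : ℝ => ∫ y in (a + s)..(a + s + 1), g y := by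
    have hp := intervalIntegral.continuous_primitive (fun x y => gii hg hK x y) a
    have : (fun s : ℝ => ∫ y in (a + s)..(a + s + 1), g y) =
        fun s => (∫ y in a..(a + s + 1), g y) - ∫ y in a..(a + s), g y := by
      ext s
      rw [intervalIntegral.integral_interval_sub_left (gii hg hK _ _) (gii hg hK _ _)]
    rw [this]
    exact (hp.comp (by fun_prop : Continuous fun s : ℝ => a + s + 1)).sub
      (hp.comp (by fun_prop : Continuous fun s : ℝ => a + s))
  have hnn : ∀ s ∈ Icc (0 : ℝ) 1, 0 ≤ ∫ y in (a + s)..(a + s + 1), g y := by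
    intro s hs
    exact intervalIntegral.integral_nonneg (by linarith) fun y hy =>
      h0 y ⟨by linarith [hs.1, hy.1], by linarith [hs.2, hy.2]⟩
  have h1 : ∫ s in (1 / 4 : ℝ)..(3 / 4), ∫ y in (a + s)..(a + s + 1), g y ≤
      ∫ s in (0 : ℝ)..1, ∫ y in (a + s)..(a + s + 1), g y := by
    refine intervalIntegral.integral_mono_interval (by norm_num) (by norm_num) (by norm_num) ?_
      (hcont.intervalIntegrable _ _)
    rw [Filter.EventuallyLE, ae_restrict_iff' measurableSet_Ioc]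
    exact ae_of_all _ fun s hs => hnn s ⟨hs.1.le, hs.2⟩
  refine le_trans ?_ h1
  have h2 : ∀ s ∈ Icc (1 / 4 : ℝ) (3 / 4), ∫ y in (a + 3 / 4)..(a + 5 / 4), g y ≤
      ∫ y in (a + s)..(a + s + 1), g y := by
    intro s hs
    refine intervalIntegral.integral_mono_interval (by linarith [hs.2]) (by linarith)
      (by linarith [hs.1]) ?_ (gii hg hK _ _)
    rw [Filter.EventuallyLE, ae_restrict_iff' measurableSet_Ioc]
    exact ae_of_all _ fun y hy => h0 y ⟨by linarith [hs.1, hy.1], by linarith [hs.2, hy.2]⟩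
  have h3 : ∫ s in (1 / 4 : ℝ)..(3 / 4), ∫ y in (a + 3 / 4)..(a + 5 / 4), g y ≤
      ∫ s in (1 / 4 : ℝ)..(3 / 4), ∫ y in (a + s)..(a + s + 1), g y :=
    intervalIntegral.integral_mono_on (by norm_num) intervalIntegrable_const
      (hcont.intervalIntegrable _ _) h2
  rw [intervalIntegral.integral_const, smul_eq_mul] at h3
  linarith

/-- **a fixed share of the average comes from one of finitely many intervals** -/
theorem nu_low (T : ℝ) : ∃ j : ℕ, j ≤ Jw ∧ ∀ (g : ℝ → ℝ) (K : ℝ), Measurable g → (∀ y, |g y| ≤ K) →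
    (∀ y ∈ Icc 0 Lw, 0 ≤ g y) →
    1 / (2 * ((Jw : ℝ) + 1)) * (∫ y in (((j : ℝ) + 7) / 8)..(((j : ℝ) + 10) / 8), g y) ≤
      ∫ y, g y ∂(nu (ZT T)) := by
  classical
  set k : Finset ℂ → ℕ := fun A => ⌊8 * ∑ ρ ∈ A, hst ρ⌋₊ with hk
  have hkm : ∀ A ∈ (ZT T).powerset, k A ∈ Finset.range (Jw + 1) := by
    intro A hA
    rw [Finset.mem_range, Nat.lt_succ_iff]
    exact Nat.floor_le_floor (by linarith [shift_le hA])
  have hsum : ∑ j ∈ Finset.range (Jw + 1), ∑ A ∈ (ZT T).powerset with k A = j, cc (ZT T) A = 1 := by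
    rw [Finset.sum_fiberwise_of_maps_to hkm, cc_sum]
  obtain ⟨j, hj, hj2⟩ := Finset.exists_le_of_sum_le (s := Finset.range (Jw + 1))
    (f := fun _ => 1 / ((Jw : ℝ) + 1)) (g := fun j => ∑ A ∈ (ZT T).powerset with k A = j, cc (ZT T) A)
    ⟨0, by simp⟩ (by
      rw [hsum, Finset.sum_const, Finset.card_range, nsmul_eq_mul]
      push_cast
      have : (0 : ℝ) < (Jw : ℝ) + 1 := by positivity
      rw [mul_one_div_cancel this.ne'])
  rw [Finset.mem_range, Nat.lt_succ_iff] at hj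
  refine ⟨j, hj, fun g K hg hK h0 => ?_⟩
  set m := ∫ y in (((j : ℝ) + 7) / 8)..(((j : ℝ) + 10) / 8), g y with hm
  have hjJ : (j : ℝ) ≤ Jw := by exact_mod_cast hj
  have hm0 : 0 ≤ m := intervalIntegral.integral_nonneg (by linarith) fun y hy =>
    h0 y ⟨le_trans (by positivity) hy.1, by linarith [hy.2, Jw_le]⟩
  rw [nu_integral hg (fun y _ => hK y)]
  have hpos : ∀ A ∈ (ZT T).powerset, 0 ≤ cc (ZT T) A *
      ∫ s in (0 : ℝ)..1, ∫ t in (0 : ℝ)..1, g ((∑ ρ ∈ A, hst ρ) + s + t) := by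
    intro A hA
    refine mul_nonneg (cc_nonneg _ _) ?_
    refine intervalIntegral.integral_nonneg (by norm_num) fun s hs => ?_
    refine intervalIntegral.integral_nonneg (by norm_num) fun t ht => ?_
    exact h0 _ ⟨by linarith [shift_nonneg A, hs.1, ht.1], by linarith [shift_le hA, hs.2, ht.2]⟩
  have h1 : ∑ A ∈ (ZT T).powerset with k A = j, cc (ZT T) A * (1 / 2 * m) ≤
      ∑ A ∈ (ZT T).powerset, cc (ZT T) A *
      ∫ s in (0 : ℝ)..1, ∫ t in (0 : ℝ)..1, g ((∑ ρ ∈ A, hst ρ) + s + t) := by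
    refine le_trans (Finset.sum_le_sum fun A hA => ?_)
      (Finset.sum_le_sum_of_subset_of_nonneg (Finset.filter_subset _ _) fun A hA _ => hpos A hA)
    rw [Finset.mem_filter] at hA
    obtain ⟨hA, hkA⟩ := hA
    apply mul_le_mul_of_nonneg_left _ (cc_nonneg _ _)
    have hs0 := shift_nonneg A
    have hs1 := shift_le hA
    set a := ∑ ρ ∈ A, hst ρ with ha
    have hka : ⌊8 * a⌋₊ = j := hkA
    have b1 : (j : ℝ) ≤ 8 * a := by
      rw [← hka]; exact Nat.floor_le (by positivity)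
    have b2 : 8 * a < (j : ℝ) + 1 := by
      rw [← hka]; exact Nat.lt_floor_add_one _
    refine le_trans ?_ (sq_low hg hK fun y hy => h0 y ⟨by linarith [hy.1], by linarith [hy.2]⟩)
    apply mul_le_mul_of_nonneg_left _ (by norm_num)
    refine intervalIntegral.integral_mono_interval (by linarith) (by linarith) (by linarith) ?_
      (gii hg hK _ _)
    rw [Filter.EventuallyLE, ae_restrict_iff' measurableSet_Ioc]
    exact ae_of_all _ fun y hy => h0 y ⟨by linarith [hy.1], by linarith [hy.2]⟩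
  refine le_trans ?_ h1
  rw [← Finset.sum_mul]
  have hJ : (0 : ℝ) < (Jw : ℝ) + 1 := by positivity
  calc 1 / (2 * ((Jw : ℝ) + 1)) * m = 1 / ((Jw : ℝ) + 1) * (1 / 2 * m) := by field_simp
    _ ≤ _ := mul_le_mul_of_nonneg_right hj2 (by positivity)

/-- **one-sided bounds are two-sided on average** -/
theorem one_sided : ∃ C : ℝ, 0 < C ∧ ∀ (u M σ : ℝ), 0 ≤ u → 0 ≤ M → |σ| = 1 →
    (∀ w ∈ Icc u (u + Lw), σ * ph w ≤ M) → ∃ j : ℕ, j ≤ Jw ∧
      ∫ w in (u + ((j : ℝ) + 7) / 8)..(u + ((j : ℝ) + 10) / 8), |rw' w| ≤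
        C * (M * Real.exp (-u) + Real.exp (-(u / 4))) := by
  obtain ⟨C0, hC00, hC0⟩ := rw_bdd
  obtain ⟨C, hC, hav⟩ := r_avg
  have hJ : (0 : ℝ) < (Jw : ℝ) + 1 := by positivity
  refine ⟨1 + 2 * ((Jw : ℝ) + 1) * (1 + 2 * C), by positivity, fun u M σ hu hM hσ h => ?_⟩
  set T := Real.exp (5 / 4 * u) with hT
  have hT1 : 1 ≤ T := Real.one_le_exp (by linarith)
  have hT0 : 0 < T := by linarith
  have ha := hav u T hu hT1
  have e1 : Real.exp u / T = Real.exp (-(u / 4)) := by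
    rw [hT, ← Real.exp_sub]; ring_nf
  rw [e1] at ha
  obtain ⟨j, hj, hlow⟩ := nu_low T
  refine ⟨j, hj, ?_⟩
  have hjJ : (j : ℝ) ≤ Jw := by exact_mod_cast hj
  have hJL := Jw_le
  set E := Real.exp (-u) with hE
  have hE0 : 0 < E := Real.exp_pos _
  set g : ℝ → ℝ := (Icc (0 : ℝ) Lw).indicator (fun c => M * E - σ * rw' (u + c)) with hg
  have hgm : Measurable g := by
    refine Measurable.indicator ?_ measurableSet_Icc
    exact measurable_const.sub ((rw_meas.comp (by fun_prop)).const_mul _)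
  have hgK : ∀ y, |g y| ≤ M * E + C0 := by
    intro y
    rw [hg]
    by_cases hy : y ∈ Icc (0 : ℝ) Lw
    · rw [indicator_of_mem hy]
      refine (abs_sub _ _).trans ?_
      rw [abs_mul σ, hσ, one_mul, abs_of_nonneg (by positivity)]
      linarith [hC0 (u + y)]
    · rw [indicator_of_notMem hy, abs_zero]
      positivity
  have hr : ∀ c ∈ Icc (0 : ℝ) Lw, σ * rw' (u + c) ≤ M * E := by
    intro c hc
    have h1 := h (u + c) ⟨by linarith [hc.1], by linarith [hc.2]⟩
    unfold rw'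
    have h2 : Real.exp (-(u + c)) ≤ E := Real.exp_le_exp.2 (by linarith [hc.1])
    calc σ * (ph (u + c) * Real.exp (-(u + c))) = (σ * ph (u + c)) * Real.exp (-(u + c)) := by ring
      _ ≤ M * Real.exp (-(u + c)) := mul_le_mul_of_nonneg_right h1 (Real.exp_pos _).le
      _ ≤ M * E := mul_le_mul_of_nonneg_left h2 hM
  have hg0 : ∀ y ∈ Icc 0 Lw, 0 ≤ g y := by
    intro y hy
    rw [hg, indicator_of_mem hy]
    linarith [hr y hy]
  have h2 := hlow g (M * E + C0) hgm hgK hg0
  have hri : Integrable (fun c => rw' (u + c)) (nu (ZT T)) :=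
    nu_int (K := C0) (rw_meas.comp (by fun_prop)) fun y _ => hC0 _
  have h3 : ∫ y, g y ∂(nu (ZT T)) ≤ M * E + 2 * C * Real.exp (-(u / 4)) := by
    have e2 : ∫ y, g y ∂(nu (ZT T)) = M * E - σ * ∫ c, rw' (u + c) ∂(nu (ZT T)) := by
      have e3 : ∫ y, g y ∂(nu (ZT T)) = ∫ y, (M * E - σ * rw' (u + y)) ∂(nu (ZT T)) := by
        refine integral_congr_ae ?_
        filter_upwards [nu_supp T] with y hy
        rw [hg, indicator_of_mem (show y ∈ Icc 0 Lw from hy)]
      have e4 : ∫ c, σ * rw' (u + c) ∂(nu (ZT T)) = σ * ∫ c, rw' (u + c) ∂(nu (ZT T)) :=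
        integral_const_mul _ _
      rw [e3, integral_sub (integrable_const _) (hri.const_mul _), e4]
      simp
    rw [e2]
    have h4 : |σ * ∫ c, rw' (u + c) ∂(nu (ZT T))| ≤ C * (Real.exp (-(u / 4)) + Real.exp (-(u / 4))) := by
      rw [abs_mul, hσ, one_mul]; exact ha
    have h5 := (abs_le.1 h4).1
    linarith
  -- the absolute value
  have h5 : ∫ w in (u + ((j : ℝ) + 7) / 8)..(u + ((j : ℝ) + 10) / 8), |rw' w| =
      ∫ c in (((j : ℝ) + 7) / 8)..(((j : ℝ) + 10) / 8), |rw' (u + c)| := by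
    rw [← intervalIntegral.integral_comp_add_left (fun w => |rw' w|) u]
  have h6 : ∫ c in (((j : ℝ) + 7) / 8)..(((j : ℝ) + 10) / 8), |rw' (u + c)| ≤
      ∫ c in (((j : ℝ) + 7) / 8)..(((j : ℝ) + 10) / 8), (g c + M * E) := by
    have hi1 : IntervalIntegrable (fun c => |rw' (u + c)|) volume (((j : ℝ) + 7) / 8) (((j : ℝ) + 10) / 8) :=
      gii (K := C0) ((rw_meas.comp (by fun_prop)).abs) (fun y => by rw [abs_abs]; exact hC0 _) _ _
    refine intervalIntegral.integral_mono_on (by linarith) hi1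
      ((gii hgm hgK _ _).add intervalIntegrable_const) fun c hc => ?_
    have hc' : c ∈ Icc 0 Lw := ⟨le_trans (by positivity) hc.1, by linarith [hc.2]⟩
    rw [hg, indicator_of_mem hc']
    have h7 : |σ * rw' (u + c)| = |rw' (u + c)| := by rw [abs_mul, hσ, one_mul]
    have hME : 0 ≤ M * E := by positivity
    rw [← h7]
    rw [abs_le]
    constructor
    · linarith [hr c hc']
    · linarith [hr c hc']
  rw [intervalIntegral.integral_add (gii hgm hgK _ _) intervalIntegrable_const,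
    intervalIntegral.integral_const, smul_eq_mul] at h6
  have h7 : ∫ y in (((j : ℝ) + 7) / 8)..(((j : ℝ) + 10) / 8), g y ≤
      2 * ((Jw : ℝ) + 1) * (M * E + 2 * C * Real.exp (-(u / 4))) := by
    have h8 := h2.trans h3
    rw [one_div, inv_mul_le_iff₀ (by positivity)] at h8
    exact h8
  rw [h5]
  have hME : 0 ≤ M * E := by positivity
  have hX : 0 < Real.exp (-(u / 4)) := Real.exp_pos _
  have e8 : (((j : ℝ) + 10) / 8 - ((j : ℝ) + 7) / 8) * (M * E) = 3 / 8 * (M * E) := by ring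
  rw [e8] at h6
  have h9 : 2 * ((Jw : ℝ) + 1) * (M * E + 2 * C * Real.exp (-(u / 4))) ≤
      2 * ((Jw : ℝ) + 1) * ((1 + 2 * C) * (M * E + Real.exp (-(u / 4)))) := by
    apply mul_le_mul_of_nonneg_left _ (by positivity)
    nlinarith [mul_nonneg hC.le hME]
  nlinarith

end Pool.Agent.Q260.OS
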