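import Pool.Agent.Q260.OS.D
import Pool.Agent.W190.A17

set_option autoImplicit false

/-!
# Large deviations in short windows, in both directions
-/

namespace Pool.Agent.Q260.OS

open MeasureTheory Filter Topology Set
open Pool.Agent.Q260.GM (ph exp_change)
open Pool.Agent.Q213.GM (ph_le)
open Pool.Agent.Q260.LB (ph_meas ph_ii SF_psi)

/-- a zero to the right of the line `Re s = θ`: windows of length `3/8` -/
theorem window_short {θ : ℝ} (hθ : 1 / 2 ≤ θ) (hz : ∃ s : ℂ, riemannZeta s = 0 ∧ θ < s.re) :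
    ∀ᶠ w : ℝ in atTop, Real.exp (θ * w) / 2 ≤ ∫ v in w..(w + 3 / 8), |ph v| := by
  have h := Pool.Agent.W190.mangoldt_window (κ := 0) (θ := θ) (c := 1 / 4) (δ := 0) le_rfl (by norm_num)
    (by norm_num) hθ (by nlinarith [sq_nonneg (2 * θ - 1)]) hz
  have h2 := Real.tendsto_exp_atTop.eventually h
  filter_upwards [h2] with w hw
  have h3 := hw Polynomial.X (by simp)
  simp only [SF_psi, Polynomial.eval_X, Real.rpow_zero, div_one] at h3
  have e1 : Real.exp w + 1 / 4 * Real.exp w = Real.exp (w + Real.log (5 / 4)) := by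
    rw [Real.exp_add, Real.exp_log (by norm_num)]; ring
  rw [e1] at h3
  have hl0 : 0 < Real.log (5 / 4) := Real.log_pos (by norm_num)
  have hl1 : Real.log (5 / 4) ≤ 3 / 8 := by
    have := Real.log_le_sub_one_of_pos (x := 5 / 4) (by norm_num)
    linarith
  have h4 : ∫ y in Real.exp w..Real.exp (w + Real.log (5 / 4)), |Chebyshev.psi y - y| =
      ∫ v in w..(w + Real.log (5 / 4)), |ph v| * Real.exp v := by
    rw [exp_change _ (by linarith : w ≤ w + Real.log (5 / 4))]
    refine intervalIntegral.integral_congr fun u _ => ?_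
    show Real.exp u * |Chebyshev.psi (Real.exp u) - Real.exp u| = |ph u| * Real.exp u
    unfold ph
    ring
  rw [h4] at h3
  have h5 : ∫ v in w..(w + Real.log (5 / 4)), |ph v| * Real.exp v ≤
      ∫ v in w..(w + Real.log (5 / 4)), |ph v| * (2 * Real.exp w) := by
    refine intervalIntegral.integral_mono_on (by linarith)
      ((ph_ii _ _).abs.mul_continuousOn (by fun_prop)) ((ph_ii _ _).abs.mul_const _) fun v hv => ?_
    apply mul_le_mul_of_nonneg_left _ (abs_nonneg _)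
    have := Real.exp_pos w
    calc Real.exp v ≤ Real.exp (w + Real.log (5 / 4)) := Real.exp_le_exp.2 hv.2
      _ ≤ 2 * Real.exp w := by rw [← e1]; linarith
  rw [intervalIntegral.integral_mul_const] at h5
  have h6 : Real.exp w ^ (1 + θ) = Real.exp w * Real.exp (θ * w) := by
    rw [← Real.exp_mul, ← Real.exp_add]; ring_nf
  rw [h6] at h3
  have h7 : Real.exp w * Real.exp (θ * w) < Real.exp w * (2 * ∫ v in w..(w + Real.log (5 / 4)), |ph v|) := by
    calc _ < _ := h3
      _ ≤ _ := h5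
      _ = _ := by ring
  have h8 := lt_of_mul_lt_mul_left h7 (Real.exp_pos w).le
  have h9 : ∫ v in w..(w + Real.log (5 / 4)), |ph v| ≤ ∫ v in w..(w + 3 / 8), |ph v| :=
    intervalIntegral.integral_mono_interval le_rfl (by linarith) (by linarith)
      (ae_of_all _ fun v => abs_nonneg _) (ph_ii _ _).abs
  linarith

/-- **oscillations in both directions in every window** -/
theorem osc_w {θ : ℝ} (hθ : 3 / 4 ≤ θ) (hz : ∃ s : ℂ, riemannZeta s = 0 ∧ θ < s.re) {σ : ℝ}
    (hσ : |σ| = 1) : ∀ᶠ u : ℝ in atTop, ∃ w ∈ Icc u (u + Lw), Real.exp (θ * w) < σ * ph w := by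
  obtain ⟨ρ, hρ0, hρ⟩ := hz
  set θ' : ℝ := (θ + ρ.re) / 2 with hθ'
  have h1 : θ < θ' := by rw [hθ']; linarith
  have h2 : θ' < ρ.re := by rw [hθ']; linarith
  have hρ1 : ρ.re < 1 := by
    by_contra h
    exact riemannZeta_ne_zero_of_one_le_re (not_lt.1 h) hρ0
  obtain ⟨C, hC, hos⟩ := one_sided
  obtain ⟨w0, hw0⟩ := (window_short (θ := θ') (by linarith) ⟨ρ, hρ0, h2⟩).exists_forall_of_atTop
  have hL := Lw_ge
  have hexp : Tendsto (fun u : ℝ => Real.exp ((θ' - θ) * u)) atTop atTop :=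
    Real.tendsto_exp_atTop.comp (tendsto_id.const_mul_atTop (by linarith))
  filter_upwards [eventually_ge_atTop (max w0 0), hexp.eventually_gt_atTop (4 * C * Real.exp (2 * Lw))]
    with u hu hu2
  by_contra hcon
  push Not at hcon
  have hu0 : 0 ≤ u := (le_max_right _ _).trans hu
  set M := Real.exp (θ * (u + Lw)) with hM
  have hM0 : 0 < M := Real.exp_pos _
  obtain ⟨j, hj, hj2⟩ := hos u M σ hu0 hM0.le hσ fun w hw => (hcon w hw).trans
    (Real.exp_le_exp.2 (mul_le_mul_of_nonneg_left hw.2 (by linarith)))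
  have hjJ : (j : ℝ) ≤ Jw := by exact_mod_cast hj
  have hJL := Jw_le
  have hj0 : (0 : ℝ) ≤ j := Nat.cast_nonneg _
  set v0 := u + ((j : ℝ) + 7) / 8 with hv0
  have e0 : u + ((j : ℝ) + 10) / 8 = v0 + 3 / 8 := by rw [hv0]; ring
  rw [e0] at hj2
  have hv0u : u ≤ v0 := by rw [hv0]; linarith
  have k1 := hw0 v0 (((le_max_left _ _).trans hu).trans hv0u)
  have hri : IntervalIntegrable (fun v => |rw' v|) volume v0 (v0 + 3 / 8) := (rw_ii _ _).abs
  have k2 : ∫ v in v0..(v0 + 3 / 8), |ph v| ≤ Real.exp (u + Lw) * ∫ v in v0..(v0 + 3 / 8), |rw' v| := by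
    rw [← intervalIntegral.integral_const_mul]
    refine intervalIntegral.integral_mono_on (by linarith) (ph_ii _ _).abs (hri.const_mul _) fun v hv => ?_
    have e : |ph v| = |rw' v| * Real.exp v := by
      unfold rw'
      rw [abs_mul, abs_of_pos (Real.exp_pos _), mul_assoc, ← Real.exp_add]
      simp
    rw [e, mul_comm]
    apply mul_le_mul_of_nonneg_right _ (abs_nonneg _)
    apply Real.exp_le_exp.2
    linarith [hv.2]
  have k3 : Real.exp (u + Lw) * (∫ v in v0..(v0 + 3 / 8), |rw' v|) ≤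
      Real.exp (u + Lw) * (C * (M * Real.exp (-u) + Real.exp (-(u / 4)))) :=
    mul_le_mul_of_nonneg_left hj2 (Real.exp_pos _).le
  have k4 : Real.exp (u + Lw) * (C * (M * Real.exp (-u) + Real.exp (-(u / 4)))) ≤
      2 * C * Real.exp (2 * Lw) * Real.exp (θ * u) := by
    have a1 : Real.exp (u + Lw) * (M * Real.exp (-u)) = Real.exp (Lw + θ * Lw) * Real.exp (θ * u) := by
      rw [hM, ← Real.exp_add, ← Real.exp_add, ← Real.exp_add]; ring_nf
    have a2 : Real.exp (u + Lw) * Real.exp (-(u / 4)) = Real.exp Lw * Real.exp (3 / 4 * u) := by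
      rw [← Real.exp_add, ← Real.exp_add]; ring_nf
    have a3 : Real.exp (Lw + θ * Lw) ≤ Real.exp (2 * Lw) := by
      apply Real.exp_le_exp.2
      have : θ * Lw ≤ 1 * Lw := mul_le_mul_of_nonneg_right (by linarith) (by linarith)
      linarith
    have a4 : Real.exp Lw * Real.exp (3 / 4 * u) ≤ Real.exp (2 * Lw) * Real.exp (θ * u) := by
      apply mul_le_mul (Real.exp_le_exp.2 (by linarith)) _ (Real.exp_pos _).le (Real.exp_pos _).le
      exact Real.exp_le_exp.2 (mul_le_mul_of_nonneg_right hθ hu0)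
    have a5 : Real.exp (Lw + θ * Lw) * Real.exp (θ * u) ≤ Real.exp (2 * Lw) * Real.exp (θ * u) :=
      mul_le_mul_of_nonneg_right a3 (Real.exp_pos _).le
    calc Real.exp (u + Lw) * (C * (M * Real.exp (-u) + Real.exp (-(u / 4)))) =
          C * (Real.exp (u + Lw) * (M * Real.exp (-u)) + Real.exp (u + Lw) * Real.exp (-(u / 4))) := by ring
      _ ≤ C * (Real.exp (2 * Lw) * Real.exp (θ * u) + Real.exp (2 * Lw) * Real.exp (θ * u)) := by
          apply mul_le_mul_of_nonneg_left _ hC.le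
          rw [a1, a2]
          linarith
      _ = _ := by ring
  have k5 : Real.exp (θ' * u) / 2 ≤ Real.exp (θ' * v0) / 2 := by
    have := Real.exp_le_exp.2 (mul_le_mul_of_nonneg_left hv0u (by linarith : 0 ≤ θ'))
    linarith
  have k6 : Real.exp (θ' * u) = Real.exp ((θ' - θ) * u) * Real.exp (θ * u) := by
    rw [← Real.exp_add]; ring_nf
  have p := Real.exp_pos (θ * u)
  have k7 : Real.exp ((θ' - θ) * u) * Real.exp (θ * u) ≤ (4 * C * Real.exp (2 * Lw)) * Real.exp (θ * u) := by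
    rw [← k6]
    linarith
  have k8 := le_of_mul_le_mul_right k7 p
  linarith

/-- the same in terms of `x` -/
theorem osc_x {θ : ℝ} (hθ : 3 / 4 ≤ θ) (hz : ∃ s : ℂ, riemannZeta s = 0 ∧ θ < s.re) {σ : ℝ}
    (hσ : |σ| = 1) : ∀ᶠ x : ℝ in atTop, ∃ y ∈ Icc x (Real.exp Lw * x),
      y ^ θ < σ * (Chebyshev.psi y - y) := by
  filter_upwards [Real.tendsto_log_atTop.eventually (osc_w hθ hz hσ), eventually_gt_atTop 0] with x hx hx0
  obtain ⟨w, hw, hw2⟩ := hx
  refine ⟨Real.exp w, ⟨?_, ?_⟩, ?_⟩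
  · calc x = Real.exp (Real.log x) := (Real.exp_log hx0).symm
      _ ≤ Real.exp w := Real.exp_le_exp.2 hw.1
  · calc Real.exp w ≤ Real.exp (Real.log x + Lw) := Real.exp_le_exp.2 hw.2
      _ = Real.exp Lw * x := by rw [Real.exp_add, Real.exp_log hx0, mul_comm]
  · rw [← Real.exp_mul, mul_comm w θ]
    exact hw2

/-- the window for the differences -/
noncomputable def Aw : ℝ := 2 * Real.exp Lw ^ 2

lemma Aw_gt : 1 < Aw := by
  unfold Aw
  have h : 1 ≤ Real.exp Lw := Real.one_le_exp Lw_pos.le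
  nlinarith

/-- **large deviations for short intervals, in both directions** -/
theorem dev {θ : ℝ} (hθ : 3 / 4 ≤ θ) (hz : ∃ s : ℂ, riemannZeta s = 0 ∧ θ < s.re) {σ : ℝ}
    (hσ : |σ| = 1) : ∀ᶠ x : ℝ in atTop, ∀ H : ℝ, 0 < H → H ≤ x → ∃ y ∈ Icc x (Aw * x), ∃ h ∈ Icc H (2 * H),
      H / x * x ^ θ < σ * (Chebyshev.psi (y + h) - Chebyshev.psi y - h) := by
  obtain ⟨ρ, hρ0, hρ⟩ := hz
  set θ' : ℝ := (θ + ρ.re) / 2 with hθ'
  have h1 : θ < θ' := by rw [hθ']; linarith
  have h2 : θ' < ρ.re := by rw [hθ']; linarith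
  set A0 := Real.exp Lw with hA0
  have hA1 : 1 ≤ A0 := Real.one_le_exp Lw_pos.le
  have hA00 : 0 < A0 := by linarith
  have hσ' : |-σ| = 1 := by rw [abs_neg, hσ]
  have o1 := osc_x (θ := θ') (by linarith) ⟨ρ, hρ0, h2⟩ hσ'
  have o2 := (tendsto_id.const_mul_atTop (show 0 < 2 * A0 by positivity)).eventually
    (osc_x (θ := θ') (by linarith) ⟨ρ, hρ0, h2⟩ hσ)
  have o3 : Tendsto (fun x : ℝ => x ^ (θ' - θ)) atTop atTop := tendsto_rpow_atTop (by linarith)
  filter_upwards [o1, o2, o3.eventually_gt_atTop (A0 ^ 2), eventually_ge_atTop 1] with x k1 k2 k3 hx1 H hH hHx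
  have hx0 : 0 < x := by linarith
  obtain ⟨y1, hy1, hy1'⟩ := k1
  obtain ⟨y2, hy2, hy2'⟩ := k2
  simp only [id] at hy2
  by_contra hcon
  push Not at hcon
  have hAw : Aw = 2 * A0 ^ 2 := rfl
  have p0 : 0 < x ^ θ := Real.rpow_pos_of_pos hx0 _
  have p1 : x ^ θ' ≤ y1 ^ θ' := Real.rpow_le_rpow hx0.le hy1.1 (by linarith)
  have hxy2 : x ≤ y2 := by
    have : 1 * x ≤ 2 * A0 * x := mul_le_mul_of_nonneg_right (by linarith) hx0.le
    linarith [hy2.1]
  have p2 : x ^ θ' ≤ y2 ^ θ' := Real.rpow_le_rpow hx0.le hxy2 (by linarith)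
  set D := y2 - y1 with hD
  have hDx : x ≤ D := by
    have : 1 * x ≤ A0 * x := mul_le_mul_of_nonneg_right hA1 hx0.le
    rw [hD]; linarith [hy2.1, hy1.2]
  have hD0 : 0 < D := by linarith
  have hy2le : y2 ≤ Aw * x := by
    rw [hAw]
    calc y2 ≤ A0 * (2 * A0 * x) := hy2.2
      _ = 2 * A0 ^ 2 * x := by ring
  set n : ℕ := ⌊D / H⌋₊ with hn
  have hn1 : 1 ≤ n := by
    apply Nat.le_floor
    rw [Nat.cast_one, le_div_iff₀ hH]
    linarith
  have hn1' : (1 : ℝ) ≤ n := by exact_mod_cast hn1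
  have hn2 : (n : ℝ) ≤ D / H := Nat.floor_le (by positivity)
  have hn3 : D / H < (n : ℝ) + 1 := Nat.lt_floor_add_one _
  set h := D / n with hh
  have hnh : (n : ℝ) * h = D := by rw [hh]; field_simp
  have hhH : h ∈ Icc H (2 * H) := by
    constructor
    · rw [hh, le_div_iff₀ (by linarith)]
      rw [le_div_iff₀ hH] at hn2
      linarith
    · rw [hh, div_le_iff₀ (by linarith)]
      rw [div_lt_iff₀ hH] at hn3
      nlinarith
  have hh0 : 0 < h := lt_of_lt_of_le hH hhH.1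
  have hsum : ∑ i ∈ Finset.range n, (Chebyshev.psi (y1 + i * h + h) - Chebyshev.psi (y1 + i * h) - h) =
      (Chebyshev.psi y2 - y2) - (Chebyshev.psi y1 - y1) := by
    have e : ∀ i ∈ Finset.range n, (Chebyshev.psi (y1 + i * h + h) - Chebyshev.psi (y1 + i * h) - h) =
        (Chebyshev.psi (y1 + ((i + 1 : ℕ) : ℝ) * h) - (y1 + ((i + 1 : ℕ) : ℝ) * h)) -
        (Chebyshev.psi (y1 + i * h) - (y1 + i * h)) := by
      intro i _
      push_cast
      have : y1 + ((i : ℝ) + 1) * h = y1 + i * h + h := by ring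
      rw [this]; ring
    rw [Finset.sum_congr rfl e, Finset.sum_range_sub
      (fun i : ℕ => Chebyshev.psi (y1 + (i : ℝ) * h) - (y1 + (i : ℝ) * h))]
    have e2 : y1 + (n : ℝ) * h = y2 := by rw [hnh, hD]; ring
    rw [e2]
    simp
  have hle : σ * ((Chebyshev.psi y2 - y2) - (Chebyshev.psi y1 - y1)) ≤ n * (H / x * x ^ θ) := by
    rw [← hsum, Finset.mul_sum]
    refine (Finset.sum_le_card_nsmul _ _ (H / x * x ^ θ) fun i hi => ?_).trans (le_of_eq ?_)
    · rw [Finset.mem_range] at hi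
      have hi' : (i : ℝ) ≤ n := by exact_mod_cast hi.le
      refine hcon _ ⟨?_, ?_⟩ h hhH
      · have : 0 ≤ (i : ℝ) * h := by positivity
        linarith [hy1.1]
      · have : (i : ℝ) * h ≤ n * h := mul_le_mul_of_nonneg_right hi' hh0.le
        linarith
    · rw [Finset.card_range, nsmul_eq_mul]
  have hgt : 2 * x ^ θ' < σ * ((Chebyshev.psi y2 - y2) - (Chebyshev.psi y1 - y1)) := by
    have : σ * ((Chebyshev.psi y2 - y2) - (Chebyshev.psi y1 - y1)) =
        σ * (Chebyshev.psi y2 - y2) + -σ * (Chebyshev.psi y1 - y1) := by ring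
    rw [this]
    linarith
  have hle2 : n * (H / x * x ^ θ) ≤ 2 * A0 ^ 2 * x ^ θ := by
    have h3 : n * H ≤ D := by
      rw [le_div_iff₀ hH] at hn2
      exact hn2
    have h4 : D ≤ 2 * A0 ^ 2 * x := by
      rw [hAw] at hy2le
      rw [hD]
      linarith [hy1.1]
    calc n * (H / x * x ^ θ) = (n * H) / x * x ^ θ := by ring
      _ ≤ (2 * A0 ^ 2 * x) / x * x ^ θ := by
          apply mul_le_mul_of_nonneg_right _ p0.le
          apply div_le_div_of_nonneg_right _ hx0.le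
          linarith
      _ = _ := by field_simp
  have e : x ^ θ' = x ^ (θ' - θ) * x ^ θ := by
    rw [← Real.rpow_add hx0]; ring_nf
  have h5 : x ^ (θ' - θ) * x ^ θ < A0 ^ 2 * x ^ θ := by
    rw [← e]; linarith
  have h6 := lt_of_mul_lt_mul_right h5 p0.le
  linarith

end Pool.Agent.Q260.OS
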