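import Pool.Agent.Q260.OS.E

set_option autoImplicit false

/-!
# Zero-free half-planes and one-sided bounds for the primes in short intervals
-/

namespace Pool.Agent.Q260.OS

open MeasureTheory Filter Topology Set

/-- two-sided bounds from a zero-free half-plane -/
theorem two_sided {θ : ℝ} (hθ : 1 / 2 ≤ θ) (hz : ∀ s : ℂ, θ < s.re → riemannZeta s ≠ 0) (A : ℝ)
    (hA : 1 < A) {ε : ℝ} (hε : 0 < ε) :
    ∀ᶠ x : ℝ in atTop, ∀ y ∈ Icc x (A * x), ∀ h : ℝ, 0 < h → h ≤ x →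
      |Chebyshev.psi (y + h) - Chebyshev.psi y - h| ≤ x ^ (θ + ε) := by
  by_cases hθ1 : θ < 1
  · set θ' : ℝ := min (θ + ε / 2) 1 with hθ'
    have h1 : θ < θ' := lt_min (by linarith) hθ1
    have h2 : θ' ≤ 1 := min_le_right _ _
    have h3 : θ' ≤ θ + ε / 2 := min_le_left _ _
    obtain ⟨C, hC, hb⟩ := Pool.Agent.W190.psi_of_free θ hθ hz θ' h1 h2
    have hlim : Tendsto (fun x : ℝ => x ^ (ε / 2)) atTop atTop := tendsto_rpow_atTop (by linarith)
    filter_upwards [hlim.eventually_ge_atTop (2 * C * (A + 1)), eventually_ge_atTop 1] with x hx hx1 y hy h hh hhx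
    have hx0 : 0 < x := by linarith
    have hy1 : 1 ≤ y := hx1.trans hy.1
    have hyh : y + h ≤ (A + 1) * x := by linarith [hy.2]
    have hb1 := hb y hy1
    have hb2 := hb (y + h) (by linarith)
    have hA1 : 0 < A + 1 := by linarith
    have e1 : y ^ θ' ≤ (A + 1) * x ^ (θ + ε / 2) := by
      calc y ^ θ' ≤ ((A + 1) * x) ^ θ' := Real.rpow_le_rpow (by linarith) (by linarith) (by linarith)
        _ = (A + 1) ^ θ' * x ^ θ' := Real.mul_rpow hA1.le hx0.le
        _ ≤ (A + 1) ^ (1 : ℝ) * x ^ (θ + ε / 2) := by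
            apply mul_le_mul (Real.rpow_le_rpow_of_exponent_le (by linarith) h2)
              (Real.rpow_le_rpow_of_exponent_le hx1 h3) (by positivity) (by positivity)
        _ = _ := by rw [Real.rpow_one]
    have e2 : (y + h) ^ θ' ≤ (A + 1) * x ^ (θ + ε / 2) := by
      calc (y + h) ^ θ' ≤ ((A + 1) * x) ^ θ' := Real.rpow_le_rpow (by linarith) hyh (by linarith)
        _ = (A + 1) ^ θ' * x ^ θ' := Real.mul_rpow hA1.le hx0.le
        _ ≤ (A + 1) ^ (1 : ℝ) * x ^ (θ + ε / 2) := by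
            apply mul_le_mul (Real.rpow_le_rpow_of_exponent_le (by linarith) h2)
              (Real.rpow_le_rpow_of_exponent_le hx1 h3) (by positivity) (by positivity)
        _ = _ := by rw [Real.rpow_one]
    have e3 : x ^ (θ + ε) = x ^ (ε / 2) * x ^ (θ + ε / 2) := by
      rw [← Real.rpow_add hx0]; ring_nf
    have p : 0 < x ^ (θ + ε / 2) := Real.rpow_pos_of_pos hx0 _
    have e4 : Chebyshev.psi (y + h) - Chebyshev.psi y - h =
        (Chebyshev.psi (y + h) - (y + h)) - (Chebyshev.psi y - y) := by ring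
    rw [e4, e3]
    calc |(Chebyshev.psi (y + h) - (y + h)) - (Chebyshev.psi y - y)| ≤
          |Chebyshev.psi (y + h) - (y + h)| + |Chebyshev.psi y - y| := abs_sub _ _
      _ ≤ C * ((A + 1) * x ^ (θ + ε / 2)) + C * ((A + 1) * x ^ (θ + ε / 2)) := by
          have := mul_le_mul_of_nonneg_left e1 hC.le
          have := mul_le_mul_of_nonneg_left e2 hC.le
          linarith
      _ = 2 * C * (A + 1) * x ^ (θ + ε / 2) := by ring
      _ ≤ _ := mul_le_mul_of_nonneg_right hx p.le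
  · -- the trivial case
    have hθ1' : 1 ≤ θ := not_lt.1 hθ1
    have hlim : Tendsto (fun x : ℝ => x ^ ε) atTop atTop := tendsto_rpow_atTop hε
    filter_upwards [hlim.eventually_ge_atTop (20 * (A + 1)), eventually_ge_atTop 1] with x hx hx1 y hy h hh hhx
    have hx0 : 0 < x := by linarith
    have hy0 : 0 < y := by linarith [hy.1]
    have h1 := Chebyshev.psi_le_const_mul_self (x := y + h) (by linarith)
    have h2 := Chebyshev.psi_nonneg y
    have h3 : Chebyshev.psi y ≤ Chebyshev.psi (y + h) := Chebyshev.psi_mono (by linarith)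
    have h4 : Real.log 4 ≤ 4 - 1 := Real.log_le_sub_one_of_pos (by norm_num)
    have h5 : y + h ≤ (A + 1) * x := by linarith [hy.2]
    have h6 : Chebyshev.psi (y + h) ≤ 8 * ((A + 1) * x) := by
      calc _ ≤ (Real.log 4 + 4) * (y + h) := h1
        _ ≤ 8 * ((A + 1) * x) := mul_le_mul (by linarith) h5 (by linarith) (by norm_num)
    have h7 : x ≤ (A + 1) * x := by nlinarith
    have h8 : 20 * (A + 1) * x ≤ x ^ (θ + ε) := by
      calc 20 * (A + 1) * x ≤ x ^ ε * x ^ (1 : ℝ) := by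
            rw [Real.rpow_one]; exact mul_le_mul_of_nonneg_right hx hx0.le
        _ = x ^ (1 + ε) := by rw [← Real.rpow_add hx0]; ring_nf
        _ ≤ _ := Real.rpow_le_rpow_of_exponent_le hx1 (by linarith)
    have h9 : 0 < (A + 1) * x := by nlinarith
    rw [abs_le]
    constructor <;> linarith

/-- the one-sided condition at arbitrarily large `x` -/
def OneSided (A σ β : ℝ) : Prop :=
  ∃ᶠ x : ℝ in atTop, ∃ H : ℝ, 0 < H ∧ H ≤ x ∧ ∀ y ∈ Icc x (A * x), ∀ h ∈ Icc H (2 * H),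
    σ * (Chebyshev.psi (y + h) - Chebyshev.psi y - h) ≤ H / x * x ^ β

lemma oneSided_of {θ : ℝ} (hθ : 1 / 2 ≤ θ) (hz : ∀ s : ℂ, θ < s.re → riemannZeta s ≠ 0) {A σ ε : ℝ}
    (hA : 1 < A) (hσ : |σ| = 1) (hε : 0 < ε) : OneSided A σ (θ + ε) := by
  have h := two_sided hθ hz A hA (ε := ε / 2) (by positivity)
  have hlim : Tendsto (fun x : ℝ => x ^ (ε / 2)) atTop atTop := tendsto_rpow_atTop (by linarith)
  refine Eventually.frequently ?_
  filter_upwards [h, hlim.eventually_ge_atTop 2, eventually_ge_atTop 1] with x hx hx2 hx1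
  have hx0 : 0 < x := by linarith
  refine ⟨x / 2, by positivity, by linarith, fun y hy h' hh => ?_⟩
  have h1 := hx y hy h' (by linarith [hh.1]) (by linarith [hh.2])
  have h2 : σ * (Chebyshev.psi (y + h') - Chebyshev.psi y - h') ≤
      |Chebyshev.psi (y + h') - Chebyshev.psi y - h'| := by
    refine (le_abs_self _).trans (le_of_eq ?_)
    rw [abs_mul, hσ, one_mul]
  have h3 : x ^ (θ + ε) = x ^ (ε / 2) * x ^ (θ + ε / 2) := by
    rw [← Real.rpow_add hx0]; ring_nf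
  have h4 : x / 2 / x * x ^ (θ + ε) = x ^ (ε / 2) / 2 * x ^ (θ + ε / 2) := by
    rw [h3]; field_simp
  rw [h4]
  have p : 0 < x ^ (θ + ε / 2) := Real.rpow_pos_of_pos hx0 _
  nlinarith

lemma free_of {θ σ : ℝ} (hθ : 3 / 4 ≤ θ) (hσ : |σ| = 1) (h : OneSided Aw σ θ) :
    ∀ s : ℂ, θ < s.re → riemannZeta s ≠ 0 := by
  intro s hs h0
  have hd := dev hθ ⟨s, h0, hs⟩ hσ
  obtain ⟨x, ⟨H, hH, hHx, h1⟩, h2⟩ := (h.and_eventually hd).exists
  obtain ⟨y, hy, h', hh', h3⟩ := h2 H hH hHx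
  exact absurd (h1 y hy h' hh') (not_le.2 h3)

lemma free_of_all {θ σ : ℝ} (hθ : 3 / 4 ≤ θ) (hσ : |σ| = 1)
    (h : ∀ ε : ℝ, 0 < ε → OneSided Aw σ (θ + ε)) : ∀ s : ℂ, θ < s.re → riemannZeta s ≠ 0 := by
  intro s hs
  exact free_of (θ := θ + (s.re - θ) / 2) (by linarith) hσ (h _ (by linarith)) s (by linarith)

/-- **the main theorem** -/
theorem main : ∃ A : ℝ, 1 < A ∧
    (∀ θ : ℝ, 3 / 4 ≤ θ → θ < 1 → List.TFAE [
      ∀ s : ℂ, θ < s.re → riemannZeta s ≠ 0,
      ∀ ε : ℝ, 0 < ε → ∀ᶠ x : ℝ in atTop, ∀ y ∈ Icc x (A * x), ∀ h : ℝ, 0 < h → h ≤ x →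
        |Chebyshev.psi (y + h) - Chebyshev.psi y - h| ≤ x ^ (θ + ε),
      ∀ ε : ℝ, 0 < ε → ∃ᶠ x : ℝ in atTop, ∃ H : ℝ, 0 < H ∧ H ≤ x ∧ ∀ y ∈ Icc x (A * x),
        ∀ h ∈ Icc H (2 * H), h - H / x * x ^ (θ + ε) ≤ Chebyshev.psi (y + h) - Chebyshev.psi y,
      ∀ ε : ℝ, 0 < ε → ∃ᶠ x : ℝ in atTop, ∃ H : ℝ, 0 < H ∧ H ≤ x ∧ ∀ y ∈ Icc x (A * x),
        ∀ h ∈ Icc H (2 * H), Chebyshev.psi (y + h) - Chebyshev.psi y ≤ h + H / x * x ^ (θ + ε)]) ∧
    ((∃ σ₀ : ℝ, 1 / 2 < σ₀ ∧ σ₀ < 1 ∧ ∀ s : ℂ, σ₀ ≤ s.re → riemannZeta s ≠ 0) ↔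
      ∃ η : ℝ, 0 < η ∧ ∃ᶠ x : ℝ in atTop, ∃ H : ℝ, 0 < H ∧ H ≤ x ∧ ∀ y ∈ Icc x (A * x),
        ∀ h ∈ Icc H (2 * H), h - H * x ^ (-η) ≤ Chebyshev.psi (y + h) - Chebyshev.psi y) := by
  have hA := Aw_gt
  have hm1 : |(-1 : ℝ)| = 1 := by simp
  have hlow : ∀ β : ℝ, OneSided Aw (-1) β ↔ ∃ᶠ x : ℝ in atTop, ∃ H : ℝ, 0 < H ∧ H ≤ x ∧ ∀ y ∈ Icc x (Aw * x),
        ∀ h ∈ Icc H (2 * H), h - H / x * x ^ β ≤ Chebyshev.psi (y + h) - Chebyshev.psi y := by
    intro β
    unfold OneSided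
    constructor
    · intro h
      refine h.mono fun x => ?_
      rintro ⟨H, h1, h2, h3⟩
      exact ⟨H, h1, h2, fun y hy h' hh => by linarith [h3 y hy h' hh]⟩
    · intro h
      refine h.mono fun x => ?_
      rintro ⟨H, h1, h2, h3⟩
      exact ⟨H, h1, h2, fun y hy h' hh => by linarith [h3 y hy h' hh]⟩
  have hup : ∀ β : ℝ, OneSided Aw 1 β ↔ ∃ᶠ x : ℝ in atTop, ∃ H : ℝ, 0 < H ∧ H ≤ x ∧ ∀ y ∈ Icc x (Aw * x),
        ∀ h ∈ Icc H (2 * H), Chebyshev.psi (y + h) - Chebyshev.psi y ≤ h + H / x * x ^ β := by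
    intro β
    unfold OneSided
    constructor
    · intro h
      refine h.mono fun x => ?_
      rintro ⟨H, h1, h2, h3⟩
      exact ⟨H, h1, h2, fun y hy h' hh => by linarith [h3 y hy h' hh]⟩
    · intro h
      refine h.mono fun x => ?_
      rintro ⟨H, h1, h2, h3⟩
      exact ⟨H, h1, h2, fun y hy h' hh => by linarith [h3 y hy h' hh]⟩
  refine ⟨Aw, hA, fun θ hθ _ => ?_, ?_⟩
  · tfae_have 1 → 2 := fun h ε hε => two_sided (by linarith) h Aw hA hε
    tfae_have 2 → 1 := by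
      intro h s hs h0
      refine free_of_all hθ hm1 (fun ε hε => ?_) s hs h0
      have h1 := h (ε / 2) (by positivity)
      have hlim : Tendsto (fun x : ℝ => x ^ (ε / 2)) atTop atTop := tendsto_rpow_atTop (by linarith)
      refine Eventually.frequently ?_
      filter_upwards [h1, hlim.eventually_ge_atTop 2, eventually_ge_atTop 1] with x hx hx2 hx1
      have hx0 : 0 < x := by linarith
      refine ⟨x / 2, by positivity, by linarith, fun y hy h' hh => ?_⟩
      have h1 := hx y hy h' (by linarith [hh.1]) (by linarith [hh.2])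
      have h2 := (abs_le.1 h1).1
      have h3 : x ^ (θ + ε) = x ^ (ε / 2) * x ^ (θ + ε / 2) := by
        rw [← Real.rpow_add hx0]; ring_nf
      have h4 : x / 2 / x * x ^ (θ + ε) = x ^ (ε / 2) / 2 * x ^ (θ + ε / 2) := by
        rw [h3]; field_simp
      rw [h4]
      have p : 0 < x ^ (θ + ε / 2) := Real.rpow_pos_of_pos hx0 _
      nlinarith
    tfae_have 1 → 3 := fun h ε hε => (hlow _).1 (oneSided_of (by linarith) h hA hm1 hε)
    tfae_have 3 → 1 := fun h => free_of_all hθ hm1 fun ε hε => (hlow _).2 (h ε hε)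
    tfae_have 1 → 4 := fun h ε hε => (hup _).1 (oneSided_of (by linarith) h hA abs_one hε)
    tfae_have 4 → 1 := fun h => free_of_all hθ abs_one fun ε hε => (hup _).2 (h ε hε)
    tfae_finish
  · constructor
    · rintro ⟨σ0, h1, h2, h3⟩
      have h4 := oneSided_of (θ := σ0) h1.le (fun s hs => h3 s hs.le) (A := Aw) (σ := -1)
        (ε := (1 - σ0) / 2) hA hm1 (by linarith)
      refine ⟨(1 - σ0) / 2, by linarith, ?_⟩
      have h5 := (hlow _).1 h4
      refine (h5.and_eventually (eventually_gt_atTop 0)).mono fun x => ?_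
      rintro ⟨⟨H, h6, h7, h8⟩, hx0⟩
      refine ⟨H, h6, h7, fun y hy h' hh => ?_⟩
      have h9 := h8 y hy h' hh
      have e : H / x * x ^ (σ0 + (1 - σ0) / 2) = H * x ^ (-((1 - σ0) / 2)) := by
        have e1 : x ^ (σ0 + (1 - σ0) / 2) = x ^ (-((1 - σ0) / 2)) * x := by
          nth_rewrite 3 [← Real.rpow_one x]
          rw [← Real.rpow_add hx0]; ring_nf
        rw [e1]; field_simp
      rwa [e] at h9
    · rintro ⟨η, hη, h⟩
      set η' : ℝ := min η (1 / 4) with hη'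
      have h1 : 0 < η' := lt_min hη (by norm_num)
      have h2 : η' ≤ 1 / 4 := min_le_right _ _
      have h3 : η' ≤ η := min_le_left _ _
      have h4 : OneSided Aw (-1) (1 - η') := by
        rw [hlow]
        refine (h.and_eventually (eventually_ge_atTop 1)).mono fun x => ?_
        rintro ⟨⟨H, h6, h7, h8⟩, hx1⟩
        have hx0 : 0 < x := by linarith
        refine ⟨H, h6, h7, fun y hy h' hh => ?_⟩
        have h9 := h8 y hy h' hh
        have e : H / x * x ^ (1 - η') = H * x ^ (-η') := by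
          have e1 : x ^ (1 - η') = x ^ (-η') * x := by
            nth_rewrite 3 [← Real.rpow_one x]
            rw [← Real.rpow_add hx0]; ring_nf
          rw [e1]; field_simp
        have e2 : x ^ (-η) ≤ x ^ (-η') := Real.rpow_le_rpow_of_exponent_le hx1 (by linarith)
        have e3 := mul_le_mul_of_nonneg_left e2 h6.le
        rw [e]
        linarith
      have h5 := free_of (by linarith) hm1 h4
      exact ⟨1 - η' / 2, by linarith, by linarith, fun s hs => h5 s (by linarith)⟩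

end Pool.Agent.Q260.OS
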