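import Pool.Agent.Q260.OS.F

set_option autoImplicit false

/-!
# One-sided bounds in mean
-/

namespace Pool.Agent.Q260.OS

open MeasureTheory Filter Topology Set
open Pool.Agent.H437R2
open Pool.Agent.Q260.GM (ph exp_change)
open Pool.Agent.Q213.GM (ph_le)
open Pool.Agent.Q260.LB (ph_meas ph_ii)

/-- the square average is at most the integral -/
lemma sq_up {g : ℝ → ℝ} {K a : ℝ} (hg : Measurable g) (hK : ∀ y, |g y| ≤ K)
    (h0 : ∀ y, 0 ≤ g y) :
    ∫ s in (0 : ℝ)..1, ∫ t in (0 : ℝ)..1, g (a + s + t) ≤ ∫ y in a..(a + 2), g y := by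
  have e : ∀ s : ℝ, ∫ t in (0 : ℝ)..1, g (a + s + t) = ∫ y in (a + s)..(a + s + 1), g y := by
    intro s
    have := intervalIntegral.integral_comp_add_left (a := 0) (b := 1) g (a + s)
    rwa [add_zero] at this
  simp_rw [e]
  have hcont : Continuous fun s : ℝ => ∫ y in (a + s)..(a + s + 1), g y := by
    have hp := intervalIntegral.continuous_primitive (fun x y => gii hg hK x y) a
    have : (fun s : ℝ => ∫ y in (a + s)..(a + s + 1), g y) =
        fun s => (∫ y in a..(a + s + 1), g y) - ∫ y in a..(a + s), g y := by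
      ext s
      rw [intervalIntegral.integral_interval_sub_left (gii hg hK _ _) (gii hg hK _ _)]
    rw [this]
    exact (hp.comp (by fun_prop : Continuous fun s : ℝ => a + s + 1)).sub
      (hp.comp (by fun_prop : Continuous fun s : ℝ => a + s))
  have h1 : ∫ s in (0 : ℝ)..1, ∫ y in (a + s)..(a + s + 1), g y ≤
      ∫ s in (0 : ℝ)..1, ∫ y in a..(a + 2), g y := by
    refine intervalIntegral.integral_mono_on (by norm_num) (hcont.intervalIntegrable _ _)
      intervalIntegrable_const fun s hs => ?_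
    exact intervalIntegral.integral_mono_interval (by linarith [hs.1]) (by linarith) (by linarith [hs.2])
      (ae_of_all _ fun y => h0 y) (gii hg hK _ _)
  refine h1.trans (le_of_eq ?_)
  rw [intervalIntegral.integral_const]
  simp

lemma nu_up {T K : ℝ} {g : ℝ → ℝ} (hg : Measurable g) (hK : ∀ y, |g y| ≤ K) (h0 : ∀ y, 0 ≤ g y) :
    ∫ y, g y ∂(nu (ZT T)) ≤ ∫ y in (0 : ℝ)..Lw, g y := by
  rw [nu_integral hg (fun y _ => hK y)]
  have h1 : ∀ A ∈ (ZT T).powerset, cc (ZT T) A *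
      ∫ s in (0 : ℝ)..1, ∫ t in (0 : ℝ)..1, g ((∑ ρ ∈ A, hst ρ) + s + t) ≤
      cc (ZT T) A * ∫ y in (0 : ℝ)..Lw, g y := by
    intro A hA
    apply mul_le_mul_of_nonneg_left _ (cc_nonneg _ _)
    refine (sq_up hg hK h0).trans ?_
    exact intervalIntegral.integral_mono_interval (shift_nonneg A) (by linarith) (by linarith [shift_le hA])
      (ae_of_all _ fun y => h0 y) (gii hg hK _ _)
  refine (Finset.sum_le_sum h1).trans (le_of_eq ?_)
  rw [← Finset.sum_mul, cc_sum, one_mul]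

/-- **one-sided mean bounds are two-sided** -/
theorem one_sided_mean : ∃ C : ℝ, 0 < C ∧ ∀ (u σ : ℝ), 0 ≤ u → |σ| = 1 → ∃ j : ℕ, j ≤ Jw ∧
      ∫ w in (u + ((j : ℝ) + 7) / 8)..(u + ((j : ℝ) + 10) / 8), |rw' w| ≤
        C * ((∫ w in u..(u + Lw), max (σ * rw' w) 0) + Real.exp (-(u / 4))) := by
  obtain ⟨C0, hC00, hC0⟩ := rw_bdd
  obtain ⟨C, hC, hav⟩ := r_avg
  have hJ : (0 : ℝ) < (Jw : ℝ) + 1 := by positivity
  refine ⟨2 * ((Jw : ℝ) + 1) * (2 + 2 * C), by positivity, fun u σ hu hσ => ?_⟩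
  set T := Real.exp (5 / 4 * u) with hT
  have hT1 : 1 ≤ T := Real.one_le_exp (by linarith)
  have ha := hav u T hu hT1
  have e1 : Real.exp u / T = Real.exp (-(u / 4)) := by
    rw [hT, ← Real.exp_sub]; ring_nf
  rw [e1] at ha
  obtain ⟨j, hj, hlow⟩ := nu_low T
  refine ⟨j, hj, ?_⟩
  have hrm : Measurable fun c => rw' (u + c) := rw_meas.comp (by fun_prop)
  have hri : Integrable (fun c => rw' (u + c)) (nu (ZT T)) := nu_int (K := C0) hrm fun y _ => hC0 _
  have hpm : Measurable fun c => max (σ * rw' (u + c)) 0 := (hrm.const_mul σ).max measurable_const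
  have hpK : ∀ y, |max (σ * rw' (u + y)) 0| ≤ C0 := by
    intro y
    rw [abs_of_nonneg (le_max_right _ _)]
    refine max_le ?_ hC00
    refine (le_abs_self _).trans ?_
    rw [abs_mul, hσ, one_mul]
    exact hC0 _
  have hpi : Integrable (fun c => max (σ * rw' (u + c)) 0) (nu (ZT T)) :=
    nu_int (K := C0) hpm fun y _ => hpK y
  have h1 := hlow (fun c => |rw' (u + c)|) C0 hrm.abs (fun y => by rw [abs_abs]; exact hC0 _)
    fun y _ => abs_nonneg _
  have h2 : ∫ c, |rw' (u + c)| ∂(nu (ZT T)) =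
      2 * (∫ c, max (σ * rw' (u + c)) 0 ∂(nu (ZT T))) - σ * ∫ c, rw' (u + c) ∂(nu (ZT T)) := by
    rw [← integral_const_mul, ← integral_const_mul, ← integral_sub (hpi.const_mul _) (hri.const_mul _)]
    refine integral_congr_ae (ae_of_all _ fun c => ?_)
    show |rw' (u + c)| = 2 * max (σ * rw' (u + c)) 0 - σ * rw' (u + c)
    have h3 : |σ * rw' (u + c)| = |rw' (u + c)| := by rw [abs_mul, hσ, one_mul]
    rw [← h3]
    rcases le_total (σ * rw' (u + c)) 0 with h4 | h4
    · rw [max_eq_right h4, abs_of_nonpos h4]; ring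
    · rw [max_eq_left h4, abs_of_nonneg h4]; ring
  have h3 : ∫ c, max (σ * rw' (u + c)) 0 ∂(nu (ZT T)) ≤ ∫ w in u..(u + Lw), max (σ * rw' w) 0 := by
    refine (nu_up hpm hpK fun y => le_max_right _ _).trans (le_of_eq ?_)
    have := intervalIntegral.integral_comp_add_left (a := 0) (b := Lw) (fun w => max (σ * rw' w) 0) u
    rw [add_zero] at this
    exact this
  have h4 : |σ * ∫ c, rw' (u + c) ∂(nu (ZT T))| ≤ C * (Real.exp (-(u / 4)) + Real.exp (-(u / 4))) := by
    rw [abs_mul, hσ, one_mul]; exact ha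
  have h5 := (abs_le.1 h4).1
  set P := ∫ w in u..(u + Lw), max (σ * rw' w) 0 with hP
  have hP0 : 0 ≤ P := intervalIntegral.integral_nonneg (by linarith [Lw_pos]) fun _ _ => le_max_right _ _
  have h6 : ∫ c, |rw' (u + c)| ∂(nu (ZT T)) ≤ 2 * P + 2 * C * Real.exp (-(u / 4)) := by
    rw [h2]; linarith
  have h7 := h1.trans h6
  rw [one_div, inv_mul_le_iff₀ (by positivity)] at h7
  have h8 : ∫ w in (u + ((j : ℝ) + 7) / 8)..(u + ((j : ℝ) + 10) / 8), |rw' w| =
      ∫ c in (((j : ℝ) + 7) / 8)..(((j : ℝ) + 10) / 8), |rw' (u + c)| := by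
    rw [← intervalIntegral.integral_comp_add_left (fun w => |rw' w|) u]
  rw [h8]
  refine h7.trans ?_
  have hE := Real.exp_pos (-(u / 4))
  calc 2 * ((Jw : ℝ) + 1) * (2 * P + 2 * C * Real.exp (-(u / 4))) ≤
        2 * ((Jw : ℝ) + 1) * ((2 + 2 * C) * (P + Real.exp (-(u / 4)))) := by
        apply mul_le_mul_of_nonneg_left _ (by positivity)
        nlinarith [mul_nonneg hC.le hP0]
    _ = _ := by ring

/-- **both signs in mean in every window** -/
theorem osc_mean {θ : ℝ} (hθ : 3 / 4 < θ) (hz : ∃ s : ℂ, riemannZeta s = 0 ∧ θ < s.re) :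
    ∃ c : ℝ, 0 < c ∧ ∀ᶠ u : ℝ in atTop, ∀ σ : ℝ, |σ| = 1 →
      c * Real.exp ((θ - 1) * u) ≤ ∫ w in u..(u + Lw), max (σ * rw' w) 0 := by
  obtain ⟨C, hC, hos⟩ := one_sided_mean
  obtain ⟨w0, hw0⟩ := (window_short (θ := θ) (by linarith) hz).exists_forall_of_atTop
  have hL := Lw_ge
  refine ⟨1 / (4 * C * Real.exp Lw), by positivity, ?_⟩
  have hexp : Tendsto (fun u : ℝ => Real.exp ((θ - 3 / 4) * u)) atTop atTop :=
    Real.tendsto_exp_atTop.comp (tendsto_id.const_mul_atTop (by linarith))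
  filter_upwards [eventually_ge_atTop (max w0 0), hexp.eventually_ge_atTop (4 * C * Real.exp Lw)]
    with u hu hu2 σ hσ
  have hu0 : 0 ≤ u := (le_max_right _ _).trans hu
  obtain ⟨j, hj, hj2⟩ := hos u σ hu0 hσ
  have hjJ : (j : ℝ) ≤ Jw := by exact_mod_cast hj
  have hJL := Jw_le
  have hj0 : (0 : ℝ) ≤ j := Nat.cast_nonneg _
  set v0 := u + ((j : ℝ) + 7) / 8 with hv0
  have e0 : u + ((j : ℝ) + 10) / 8 = v0 + 3 / 8 := by rw [hv0]; ring
  rw [e0] at hj2
  have hv0u : u ≤ v0 := by rw [hv0]; linarith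
  have k1 := hw0 v0 (((le_max_left _ _).trans hu).trans hv0u)
  have hri : IntervalIntegrable (fun v => |rw' v|) volume v0 (v0 + 3 / 8) := (rw_ii _ _).abs
  have k2 : ∫ v in v0..(v0 + 3 / 8), |ph v| ≤ Real.exp (u + Lw) * ∫ v in v0..(v0 + 3 / 8), |rw' v| := by
    rw [← intervalIntegral.integral_const_mul]
    refine intervalIntegral.integral_mono_on (by linarith) (ph_ii _ _).abs (hri.const_mul _) fun v hv => ?_
    have e : |ph v| = |rw' v| * Real.exp v := by
      unfold rw'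
      rw [abs_mul, abs_of_pos (Real.exp_pos _), mul_assoc, ← Real.exp_add]
      simp
    rw [e, mul_comm]
    apply mul_le_mul_of_nonneg_right _ (abs_nonneg _)
    apply Real.exp_le_exp.2
    linarith [hv.2]
  set P := ∫ w in u..(u + Lw), max (σ * rw' w) 0 with hP
  have k3 := mul_le_mul_of_nonneg_left hj2 (Real.exp_pos (u + Lw)).le
  have k5 : Real.exp (θ * u) / 2 ≤ Real.exp (θ * v0) / 2 := by
    have := Real.exp_le_exp.2 (mul_le_mul_of_nonneg_left hv0u (by linarith : 0 ≤ θ))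
    linarith
  have k6 : Real.exp (θ * u) / 2 ≤ Real.exp (u + Lw) * (C * (P + Real.exp (-(u / 4)))) := by linarith
  have a1 : Real.exp (θ * u) = Real.exp u * Real.exp ((θ - 1) * u) := by rw [← Real.exp_add]; ring_nf
  have a2 : Real.exp ((θ - 1) * u) = Real.exp ((θ - 3 / 4) * u) * Real.exp (-(u / 4)) := by
    rw [← Real.exp_add]; ring_nf
  have p1 := Real.exp_pos u
  have p2 := Real.exp_pos (-(u / 4))
  have p3 := Real.exp_pos Lw
  have a3 : Real.exp u * Real.exp ((θ - 1) * u) ≤ Real.exp u * (2 * (C * Real.exp Lw) * (P + Real.exp (-(u / 4)))) := by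
    rw [← a1]
    have : Real.exp (u + Lw) = Real.exp u * Real.exp Lw := Real.exp_add _ _
    rw [this] at k6
    linarith
  have a4 := le_of_mul_le_mul_left a3 p1
  have a5 : 4 * C * Real.exp Lw * Real.exp (-(u / 4)) ≤ Real.exp ((θ - 1) * u) := by
    rw [a2]; exact mul_le_mul_of_nonneg_right hu2 p2.le
  rw [div_mul_eq_mul_div, one_mul, div_le_iff₀ (by positivity)]
  nlinarith

end Pool.Agent.Q260.OS
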