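import Pool.Agent.Q260.OS.G

set_option autoImplicit false

/-!
# Double integrals and blocks
-/

namespace Pool.Agent.Q260.OS

open MeasureTheory Filter Topology Set

lemma rect_int {φ : ℝ → ℝ → ℝ} {a b c d K : ℝ} (hm : Measurable (Function.uncurry φ))
    (hK : ∀ y ∈ Ioc a b, ∀ h ∈ Ioc c d, |φ y h| ≤ K) :
    Integrable (Function.uncurry φ) ((volume.restrict (Ioc a b)).prod (volume.restrict (Ioc c d))) := by
  rw [Measure.prod_restrict]
  refine Measure.integrableOn_of_bounded (M := K) ?_ hm.aestronglyMeasurable ?_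
  · rw [Measure.prod_prod]
    exact ENNReal.mul_lt_top (by simp) (by simp) |>.ne
  · refine (ae_restrict_mem (measurableSet_Ioc.prod measurableSet_Ioc)).mono fun p hp => ?_
    exact hK p.1 hp.1 p.2 hp.2

lemma rect_swap {φ : ℝ → ℝ → ℝ} {a b c d K : ℝ} (hab : a ≤ b) (hcd : c ≤ d)
    (hm : Measurable (Function.uncurry φ)) (hK : ∀ y ∈ Ioc a b, ∀ h ∈ Ioc c d, |φ y h| ≤ K) :
    ∫ y in a..b, ∫ h in c..d, φ y h = ∫ h in c..d, ∫ y in a..b, φ y h := by
  simp only [intervalIntegral.integral_of_le hab, intervalIntegral.integral_of_le hcd]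
  exact integral_integral_swap (rect_int hm hK)

lemma rect_left {φ : ℝ → ℝ → ℝ} {a b c d K : ℝ} (hab : a ≤ b) (hcd : c ≤ d)
    (hm : Measurable (Function.uncurry φ)) (hK : ∀ y ∈ Ioc a b, ∀ h ∈ Ioc c d, |φ y h| ≤ K) :
    IntervalIntegrable (fun y => ∫ h in c..d, φ y h) volume a b := by
  rw [intervalIntegrable_iff_integrableOn_Ioc_of_le hab]
  simp only [intervalIntegral.integral_of_le hcd]
  exact (rect_int hm hK).integral_prod_left

lemma rect_right {φ : ℝ → ℝ → ℝ} {a b c d K : ℝ} (hab : a ≤ b) (hcd : c ≤ d)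
    (hm : Measurable (Function.uncurry φ)) (hK : ∀ y ∈ Ioc a b, ∀ h ∈ Ioc c d, |φ y h| ≤ K) :
    IntervalIntegrable (fun h => ∫ y in a..b, φ y h) volume c d := by
  rw [intervalIntegrable_iff_integrableOn_Ioc_of_le hcd]
  simp only [intervalIntegral.integral_of_le hab]
  exact (rect_int hm hK).integral_prod_right

/-- the error term -/
noncomputable def Fe (y : ℝ) : ℝ := Chebyshev.psi y - y

lemma Fe_meas : Measurable Fe := by
  unfold Fe
  exact Chebyshev.psi_mono.measurable.sub measurable_id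

lemma Fe_abs {y : ℝ} (hy : 0 ≤ y) : |Fe y| ≤ 8 * y := by
  have h1 := Chebyshev.psi_le_const_mul_self hy
  have h2 := Chebyshev.psi_nonneg y
  have h3 : Real.log 4 ≤ 4 - 1 := Real.log_le_sub_one_of_pos (by norm_num)
  have h4 : Chebyshev.psi y ≤ 8 * y := h1.trans (mul_le_mul_of_nonneg_right (by linarith) hy)
  unfold Fe
  rw [abs_le]
  constructor <;> linarith

/-- the one-sided error for the interval `(y, y + h]` -/
noncomputable def de (τ y h : ℝ) : ℝ := max (τ * (Fe y - Fe (y + h))) 0

lemma de_nonneg (τ y h : ℝ) : 0 ≤ de τ y h := le_max_right _ _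

lemma de_meas (τ : ℝ) : Measurable (Function.uncurry (de τ)) := by
  unfold de Function.uncurry
  have h1 : Measurable fun p : ℝ × ℝ => Fe p.1 := Fe_meas.comp measurable_fst
  have h2 : Measurable fun p : ℝ × ℝ => Fe (p.1 + p.2) := Fe_meas.comp (by fun_prop)
  exact ((h1.sub h2).const_mul τ).max measurable_const

lemma de_le {τ y h R : ℝ} (hτ : |τ| = 1) (hy : 0 ≤ y) (hyR : y ≤ R) (hh : 0 ≤ y + h) (hhR : y + h ≤ R) :
    |de τ y h| ≤ 16 * R := by
  rw [abs_of_nonneg (de_nonneg _ _ _)]
  have hR : 0 ≤ R := hy.trans hyR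
  unfold de
  refine max_le ?_ (by positivity)
  refine (le_abs_self _).trans ?_
  rw [abs_mul, hτ, one_mul]
  refine (abs_sub _ _).trans ?_
  have h1 := Fe_abs hy
  have h2 := Fe_abs hh
  linarith

/-- the mean one-sided error -/
noncomputable def Df (τ A x H : ℝ) : ℝ := ∫ h in H..(2 * H), ∫ y in x..(A * x), de τ y h

/-- telescoping -/
lemma de_tele (τ y h : ℝ) (n : ℕ) :
    max (τ * (Fe y - Fe (y + n * h))) 0 ≤ ∑ m ∈ Finset.range n, de τ (y + m * h) h := by
  have hs : 0 ≤ ∑ m ∈ Finset.range n, de τ (y + m * h) h := Finset.sum_nonneg fun m _ => de_nonneg _ _ _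
  refine max_le ?_ hs
  have h1 : τ * (Fe y - Fe (y + n * h)) =
      ∑ m ∈ Finset.range n, τ * (Fe (y + m * h) - Fe (y + m * h + h)) := by
    have e : ∀ m ∈ Finset.range n, τ * (Fe (y + m * h) - Fe (y + m * h + h)) =
        -(τ * Fe (y + ((m + 1 : ℕ) : ℝ) * h) - τ * Fe (y + (m : ℝ) * h)) := by
      intro m _
      push_cast
      have : y + ((m : ℝ) + 1) * h = y + m * h + h := by ring
      rw [this]; ring
    rw [Finset.sum_congr rfl e, Finset.sum_neg_distrib,
      Finset.sum_range_sub (fun m : ℕ => τ * Fe (y + (m : ℝ) * h))]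
    simp
    ring
  rw [h1]
  exact Finset.sum_le_sum fun m _ => le_max_left _ _

lemma de_shift_meas (τ c : ℝ) : Measurable (Function.uncurry fun y h : ℝ => de τ (y + c * h) h) := by
  unfold de Function.uncurry
  have h1 : Measurable fun p : ℝ × ℝ => Fe (p.1 + c * p.2) := Fe_meas.comp (by fun_prop)
  have h2 : Measurable fun p : ℝ × ℝ => Fe (p.1 + c * p.2 + p.2) := Fe_meas.comp (by fun_prop)
  exact ((h1.sub h2).const_mul τ).max measurable_const

/-- **the block** -/
theorem block {τ A x a z0 z1 H : ℝ} (hτ : |τ| = 1) (hx : 0 < x) (hxa : x ≤ a) (haz : 20 * a ≤ z0)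
    (hz : z0 ≤ z1) (hz1 : z1 ≤ 7 / 5 * z0) (hH : 0 < H) (hHx : H ≤ x) (hA : a + 2 * z0 ≤ A * x) :
    (∫ y in x..a, ∫ z in z0..z1, max (τ * (Fe y - Fe z)) 0) ≤ (z0 / H) ^ 2 * Df τ A x H := by
  set n : ℕ := ⌊19 / 20 * z0 / H⌋₊ with hn
  have ha0 : 0 < a := by linarith
  have hz00 : 0 < z0 := by linarith
  have hn1 : (n : ℝ) ≤ 19 / 20 * z0 / H := Nat.floor_le (by positivity)
  have hn2 : 19 / 20 * z0 / H < (n : ℝ) + 1 := Nat.lt_floor_add_one _
  rw [le_div_iff₀ hH] at hn1
  rw [div_lt_iff₀ hH] at hn2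
  have hHz : H ≤ z0 / 20 := by linarith
  have hn0 : 0 < (n : ℝ) := by
    have h1 : 0 < (n : ℝ) * H := by nlinarith
    rcases (Nat.cast_nonneg n : (0 : ℝ) ≤ n).lt_or_eq with h2 | h2
    · exact h2
    · rw [← h2, zero_mul] at h1
      exact absurd h1 (lt_irrefl 0)
  have hD0 : 0 ≤ Df τ A x H := intervalIntegral.integral_nonneg (by linarith) fun h _ =>
    intervalIntegral.integral_nonneg (by linarith) fun y _ => de_nonneg _ _ _
  -- step 1: the inner integral
  have hmde : ∀ m : ℕ, Measurable (Function.uncurry fun y h : ℝ => de τ (y + m * h) h) := by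
    intro m
    exact de_shift_meas τ m
  have hR : ∀ y ∈ Icc x a, ∀ h ∈ Icc H (2 * H), ∀ m : ℕ, m < n → |de τ (y + m * h) h| ≤ 16 * (A * x) := by
    intro y hy h hh m hm
    have hm' : (m : ℝ) + 1 ≤ n := by exact_mod_cast hm
    have hh0 : 0 < h := lt_of_lt_of_le hH hh.1
    have h1 : ((m : ℝ) + 1) * h ≤ n * (2 * H) := mul_le_mul hm' hh.2 hh0.le hn0.le
    have h2 : 0 ≤ (m : ℝ) * h := by positivity
    refine de_le hτ (by linarith [hy.1]) ?_ (by linarith [hy.1]) ?_
    · linarith [hy.2]
    · linarith [hy.2]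
  have hms : Measurable (Function.uncurry fun y h : ℝ => ∑ m ∈ Finset.range n, de τ (y + m * h) h) := by
    have : (Function.uncurry fun y h : ℝ => ∑ m ∈ Finset.range n, de τ (y + m * h) h) =
        fun p => ∑ m ∈ Finset.range n, (Function.uncurry fun y h : ℝ => de τ (y + m * h) h) p := rfl
    rw [this]
    exact Finset.measurable_fun_sum _ fun m _ => hmde m
  have hbs' : ∀ y ∈ Icc x a, ∀ h ∈ Icc H (2 * H), |∑ m ∈ Finset.range n, de τ (y + m * h) h| ≤
      n * (16 * (A * x)) := by
    intro y hy h hh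
    refine (Finset.abs_sum_le_sum_abs _ _).trans ?_
    refine (Finset.sum_le_card_nsmul _ _ (16 * (A * x)) fun m hm => ?_).trans (le_of_eq ?_)
    · exact hR y hy h hh m (Finset.mem_range.1 hm)
    · rw [Finset.card_range, nsmul_eq_mul]
  have hbs : ∀ y ∈ Ioc x a, ∀ h ∈ Ioc H (2 * H), |∑ m ∈ Finset.range n, de τ (y + m * h) h| ≤
      n * (16 * (A * x)) := fun y hy h hh => hbs' y ⟨hy.1.le, hy.2⟩ h ⟨hh.1.le, hh.2⟩
  have step : ∀ y ∈ Icc x a, ∫ z in z0..z1, max (τ * (Fe y - Fe z)) 0 ≤
      n * ∫ h in H..(2 * H), ∑ m ∈ Finset.range n, de τ (y + m * h) h := by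
    intro y hy
    have hmφ : Measurable fun z => max (τ * (Fe y - Fe z)) 0 :=
      ((measurable_const.sub Fe_meas).const_mul τ).max measurable_const
    have e1 : ∫ z in z0..z1, max (τ * (Fe y - Fe z)) 0 =
        n * ∫ h in ((z0 - y) / n)..((z1 - y) / n), max (τ * (Fe y - Fe (y + n * h))) 0 := by
      have h1 := intervalIntegral.mul_integral_comp_add_mul (a := (z0 - y) / n) (b := (z1 - y) / n)
        (f := fun z => max (τ * (Fe y - Fe z)) 0) (n : ℝ) y
      rw [h1]
      congr 1 <;> field_simp <;> ring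
    rw [e1]
    apply mul_le_mul_of_nonneg_left _ hn0.le
    have b1 : H ≤ (z0 - y) / n := by
      rw [le_div_iff₀ hn0]; linarith [hy.2]
    have b2 : (z0 - y) / n ≤ (z1 - y) / n := by
      apply div_le_div_of_nonneg_right _ hn0.le
      linarith
    have b3 : (z1 - y) / n ≤ 2 * H := by
      rw [div_le_iff₀ hn0]; nlinarith [hy.1]
    have ii : ∀ c d : ℝ, H ≤ c → c ≤ d → d ≤ 2 * H →
        IntervalIntegrable (fun h => max (τ * (Fe y - Fe (y + n * h))) 0) volume c d := by
      intro c d hc hcd hd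
      rw [intervalIntegrable_iff_integrableOn_Ioc_of_le hcd]
      refine Measure.integrableOn_of_bounded (M := 16 * (A * x)) (by simp)
        (hmφ.comp (by fun_prop : Measurable fun h : ℝ => y + n * h)).aestronglyMeasurable ?_
      refine (ae_restrict_mem measurableSet_Ioc).mono fun h hh => ?_
      have hh0 : 0 < h := by linarith [hh.1]
      have h1 : (n : ℝ) * h ≤ n * (2 * H) := mul_le_mul_of_nonneg_left (by linarith [hh.2]) hn0.le
      have h2 : 0 ≤ (n : ℝ) * h := by positivity
      have := de_le (τ := τ) (y := y) (h := n * h) (R := A * x) hτ (by linarith [hy.1])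
        (by linarith [hy.2]) (by linarith [hy.1]) (by linarith [hy.2])
      exact this
    have h2 : ∫ h in ((z0 - y) / n)..((z1 - y) / n), max (τ * (Fe y - Fe (y + n * h))) 0 ≤
        ∫ h in H..(2 * H), max (τ * (Fe y - Fe (y + n * h))) 0 :=
      intervalIntegral.integral_mono_interval b1 b2 b3 (ae_of_all _ fun h => le_max_right _ _)
        (ii _ _ le_rfl (by linarith) le_rfl)
    refine h2.trans ?_
    refine intervalIntegral.integral_mono_on (by linarith) (ii _ _ le_rfl (by linarith) le_rfl) ?_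
      fun h _ => de_tele τ y h n
    rw [intervalIntegrable_iff_integrableOn_Ioc_of_le (by linarith)]
    refine Measure.integrableOn_of_bounded (M := n * (16 * (A * x))) (by simp)
      (hms.comp (measurable_const.prodMk measurable_id)).aestronglyMeasurable ?_
    exact (ae_restrict_mem measurableSet_Ioc).mono fun h hh => hbs' y hy h ⟨hh.1.le, hh.2⟩
  -- step 2: the outer integral
  have hmz : Measurable (Function.uncurry fun y z : ℝ => max (τ * (Fe y - Fe z)) 0) := by
    unfold Function.uncurry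
    exact (((Fe_meas.comp measurable_fst).sub (Fe_meas.comp measurable_snd)).const_mul τ).max measurable_const
  have hbz : ∀ y ∈ Ioc x a, ∀ z ∈ Ioc z0 z1, |max (τ * (Fe y - Fe z)) 0| ≤ 16 * (A * x) := by
    intro y hy z hzz
    have := de_le (τ := τ) (y := y) (h := z - y) (R := A * x) hτ (by linarith [hy.1])
      (by linarith [hy.2]) (by linarith [hzz.1]) (by linarith [hzz.2])
    unfold de at this
    rwa [add_sub_cancel] at this
  have s1 : (∫ y in x..a, ∫ z in z0..z1, max (τ * (Fe y - Fe z)) 0) ≤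
      ∫ y in x..a, n * ∫ h in H..(2 * H), ∑ m ∈ Finset.range n, de τ (y + m * h) h :=
    intervalIntegral.integral_mono_on hxa (rect_left hxa hz hmz hbz)
      ((rect_left hxa (by linarith) hms hbs).const_mul _) step
  rw [intervalIntegral.integral_const_mul, rect_swap hxa (by linarith) hms hbs] at s1
  have s2 : ∫ h in H..(2 * H), ∫ y in x..a, ∑ m ∈ Finset.range n, de τ (y + m * h) h ≤
      ∫ h in H..(2 * H), n * ∫ y in x..(A * x), de τ y h := by
    have hb0 : ∀ y ∈ Ioc x (A * x), ∀ h ∈ Ioc H (2 * H), |de τ y h| ≤ 16 * (A * x + 2 * H) := by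
      intro y hy h hh
      exact de_le hτ (by linarith [hy.1]) (by linarith [hy.2]) (by linarith [hy.1, hh.1])
        (by linarith [hy.2, hh.2])
    refine intervalIntegral.integral_mono_on (by linarith) (rect_right hxa (by linarith) hms hbs)
      ((rect_right (by linarith) (by linarith) (de_meas τ) hb0).const_mul _) fun h hh => ?_
    have hh0 : 0 < h := by linarith [hh.1]
    have hi : ∀ c d : ℝ, 0 ≤ c → c ≤ d → IntervalIntegrable (fun y => de τ y h) volume c d := by
      intro c d hc hcd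
      rw [intervalIntegrable_iff_integrableOn_Ioc_of_le hcd]
      refine Measure.integrableOn_of_bounded (M := 16 * (d + h)) (by simp)
        ((de_meas τ).comp (measurable_id.prodMk measurable_const)).aestronglyMeasurable ?_
      refine (ae_restrict_mem measurableSet_Ioc).mono fun y hy => ?_
      exact de_le hτ (by linarith [hy.1]) (by linarith [hy.2]) (by linarith [hy.1]) (by linarith [hy.2])
    rw [intervalIntegral.integral_finsetSum]
    · refine (Finset.sum_le_card_nsmul _ _ (∫ y in x..(A * x), de τ y h) fun m hm => ?_).trans (le_of_eq ?_)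
      · have hm' : (m : ℝ) ≤ n := by exact_mod_cast (Finset.mem_range.1 hm).le
        have h1 : (m : ℝ) * h ≤ n * (2 * H) := mul_le_mul hm' hh.2 hh0.le hn0.le
        have h2 : 0 ≤ (m : ℝ) * h := by positivity
        rw [intervalIntegral.integral_comp_add_right (fun y => de τ y h)]
        exact intervalIntegral.integral_mono_interval (by linarith) (by linarith) (by linarith)
          (ae_of_all _ fun y => de_nonneg _ _ _) (hi _ _ hx.le (by linarith))
      · rw [Finset.card_range, nsmul_eq_mul]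
    · intro m _
      have := (hi (x + m * h) (a + m * h) (by positivity) (by linarith)).comp_add_right (m * h)
      simpa using this
  rw [intervalIntegral.integral_const_mul] at s2
  have s3 : (∫ y in x..a, ∫ z in z0..z1, max (τ * (Fe y - Fe z)) 0) ≤ n * (n * Df τ A x H) :=
    s1.trans (mul_le_mul_of_nonneg_left s2 hn0.le)
  have s4 : (n : ℝ) ≤ z0 / H := by
    rw [le_div_iff₀ hH]; linarith
  calc _ ≤ n * (n * Df τ A x H) := s3
    _ = (n : ℝ) ^ 2 * Df τ A x H := by ring
    _ ≤ _ := mul_le_mul_of_nonneg_right (pow_le_pow_left₀ hn0.le s4 2) hD0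

end Pool.Agent.Q260.OS
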