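import Pool.Agent.Q260.OS.H

set_option autoImplicit false

/-!
# Large mean deviations for short intervals, in both directions
-/

namespace Pool.Agent.Q260.OS

open MeasureTheory Filter Topology Set
open Pool.Agent.Q260.GM (ph exp_change)

/-- the ratio of the windows -/
noncomputable def A0 : ℝ := Real.exp Lw

lemma A0_ge : 1 ≤ A0 := Real.one_le_exp Lw_pos.le

lemma Fe_exp (w : ℝ) : Fe (Real.exp w) = ph w := rfl

lemma pos_ii {τ a b : ℝ} (ha : 0 ≤ a) (hab : a ≤ b) (hτ : |τ| = 1) :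
    IntervalIntegrable (fun y => max (τ * Fe y) 0) volume a b := by
  rw [intervalIntegrable_iff_integrableOn_Ioc_of_le hab]
  refine Measure.integrableOn_of_bounded (M := 8 * b) (by simp)
    (((Fe_meas.const_mul τ).max measurable_const).aestronglyMeasurable) ?_
  refine (ae_restrict_mem measurableSet_Ioc).mono fun y hy => ?_
  have hy0 : 0 ≤ y := by linarith [hy.1]
  rw [Real.norm_of_nonneg (le_max_right _ _)]
  refine max_le ?_ (by linarith)
  refine (le_abs_self _).trans ?_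
  rw [abs_mul, hτ, one_mul]
  exact (Fe_abs hy0).trans (by linarith [hy.2])

/-- both signs in mean in every window, in terms of `x` -/
theorem osc_mean_x {θ : ℝ} (hθ : 3 / 4 < θ) (hz : ∃ s : ℂ, riemannZeta s = 0 ∧ θ < s.re) :
    ∃ c : ℝ, 0 < c ∧ ∀ᶠ x : ℝ in atTop, ∀ τ : ℝ, |τ| = 1 →
      c * x ^ (1 + θ) ≤ ∫ y in x..(A0 * x), max (τ * Fe y) 0 := by
  obtain ⟨c, hc, h⟩ := osc_mean hθ hz
  refine ⟨c, hc, ?_⟩
  filter_upwards [Real.tendsto_log_atTop.eventually h, eventually_gt_atTop 0] with x hx hx0 τ hτ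
  have h1 := hx τ hτ
  set u := Real.log x with hu
  have hxe : x = Real.exp u := (Real.exp_log hx0).symm
  have hA : A0 * x = Real.exp (u + Lw) := by
    rw [Real.exp_add, ← hxe]; unfold A0; ring
  have hL := Lw_pos
  rw [hA, hxe, exp_change _ (by linarith : u ≤ u + Lw)]
  have hri : IntervalIntegrable (fun w => max (τ * rw' w) 0) volume u (u + Lw) := by
    obtain ⟨C0, hC00, hC0⟩ := rw_bdd
    refine gii (K := C0) ((rw_meas.const_mul τ).max measurable_const) (fun y => ?_) _ _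
    rw [abs_of_nonneg (le_max_right _ _)]
    refine max_le ?_ hC00
    refine (le_abs_self _).trans ?_
    rw [abs_mul, hτ, one_mul]
    exact hC0 _
  have e : ∀ w : ℝ, Real.exp w * max (τ * Fe (Real.exp w)) 0 =
      Real.exp (2 * w) * max (τ * rw' w) 0 := by
    intro w
    rw [Fe_exp]
    have h2 : τ * ph w = Real.exp w * (τ * rw' w) := by
      unfold rw'
      have : Real.exp w * (τ * (ph w * Real.exp (-w))) = τ * ph w * (Real.exp w * Real.exp (-w)) := by ring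
      rw [this, ← Real.exp_add]; simp
    have h3 : max (τ * ph w) 0 = Real.exp w * max (τ * rw' w) 0 := by
      rw [h2, mul_max_of_nonneg _ _ (Real.exp_pos w).le, mul_zero]
    rw [h3, ← mul_assoc, ← Real.exp_add]
    ring_nf
  have h2 : Real.exp (2 * u) * (∫ w in u..(u + Lw), max (τ * rw' w) 0) ≤
      ∫ w in u..(u + Lw), Real.exp w * max (τ * Fe (Real.exp w)) 0 := by
    rw [← intervalIntegral.integral_const_mul]
    refine intervalIntegral.integral_mono_on (by linarith) (hri.const_mul _) ?_ fun w hw => ?_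
    · simp_rw [e]
      exact hri.continuousOn_mul (by fun_prop)
    · rw [e]
      apply mul_le_mul_of_nonneg_right _ (le_max_right _ _)
      exact Real.exp_le_exp.2 (by linarith [hw.1])
  have h3 := mul_le_mul_of_nonneg_left h1 (Real.exp_pos (2 * u)).le
  refine le_trans (le_of_eq ?_) (h3.trans h2)
  rw [← Real.exp_mul]
  have : Real.exp (2 * u) * (c * Real.exp ((θ - 1) * u)) = c * (Real.exp (2 * u) * Real.exp ((θ - 1) * u)) := by ring
  rw [this, ← Real.exp_add]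
  congr 2
  ring

/-- the number of pieces -/
noncomputable def Kp : ℕ := ⌈A0⌉₊ * 3

lemma Kp_spec : A0 ≤ (7 / 5 : ℝ) ^ Kp := by
  have h1 : A0 ≤ (⌈A0⌉₊ : ℝ) := Nat.le_ceil _
  have h2 : ((⌈A0⌉₊ : ℕ) : ℝ) ≤ (7 / 5 : ℝ) ^ Kp := by
    unfold Kp
    rw [mul_comm, pow_mul]
    have h3 : (2 : ℝ) ^ ⌈A0⌉₊ ≤ ((7 / 5 : ℝ) ^ 3) ^ ⌈A0⌉₊ := pow_le_pow_left₀ (by norm_num) (by norm_num) _
    have h4 : ((⌈A0⌉₊ : ℕ) : ℝ) ≤ (2 : ℝ) ^ ⌈A0⌉₊ := by
      exact_mod_cast (Nat.lt_two_pow_self (n := ⌈A0⌉₊)).le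
    linarith
  linarith

/-- the window for the mean deviations -/
noncomputable def A1 : ℝ := A0 + 40 * A0 * (7 / 5) ^ Kp

lemma A1_gt : 1 < A1 := by
  unfold A1
  have h := A0_ge
  have h2 : (1 : ℝ) ≤ (7 / 5) ^ Kp := one_le_pow₀ (by norm_num)
  nlinarith

/-- indicator of the opposite sign -/
noncomputable def ng (τ z : ℝ) : ℝ := if τ * Fe z < 0 then 1 else 0

lemma ng_meas (τ : ℝ) : Measurable (ng τ) := by
  unfold ng
  exact Measurable.ite (measurableSet_lt (Fe_meas.const_mul τ) measurable_const) measurable_const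
    measurable_const

lemma ng_bd (τ z : ℝ) : 0 ≤ ng τ z ∧ ng τ z ≤ 1 := by
  unfold ng
  split_ifs <;> norm_num

lemma ng_ii (τ a b : ℝ) : IntervalIntegrable (ng τ) volume a b :=
  gii (K := 1) (ng_meas τ) (fun y => by rw [abs_of_nonneg (ng_bd τ y).1]; exact (ng_bd τ y).2) _ _

lemma pair_low {τ y z : ℝ} : max (τ * Fe y) 0 * ng τ z ≤ max (τ * (Fe y - Fe z)) 0 := by
  unfold ng
  split_ifs with h
  · rw [mul_one]
    apply max_le_max _ le_rfl
    rw [mul_sub]; linarith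
  · rw [mul_zero]; exact le_max_right _ _

/-- the product of the two means is at most the mean deviation -/
theorem product {τ x H : ℝ} (hτ : |τ| = 1) (hx : 0 < x) (hH : 0 < H) (hHx : H ≤ x) :
    (∫ y in x..(A0 * x), max (τ * Fe y) 0) * (∫ z in (20 * A0 * x)..(A0 * (20 * A0 * x)), ng τ z) ≤
      Kp * ((20 * A0 * (7 / 5) ^ Kp * x / H) ^ 2 * Df τ A1 x H) := by
  have hA0 := A0_ge
  set P := ∫ y in x..(A0 * x), max (τ * Fe y) 0 with hP
  set Z := 20 * A0 * x with hZ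
  have hxa : x ≤ A0 * x := by nlinarith
  have hZ0 : 0 < Z := by positivity
  have hP0 : 0 ≤ P := intervalIntegral.integral_nonneg hxa fun _ _ => le_max_right _ _
  have hq : ∀ i : ℕ, (1 : ℝ) ≤ (7 / 5) ^ i := fun i => one_le_pow₀ (by norm_num)
  have hD0 : 0 ≤ Df τ A1 x H := intervalIntegral.integral_nonneg (by linarith) fun h _ =>
    intervalIntegral.integral_nonneg (by nlinarith [A1_gt]) fun y _ => de_nonneg _ _ _
  have h1 : ∫ z in Z..(A0 * Z), ng τ z ≤ ∫ z in Z..(Z * (7 / 5) ^ Kp), ng τ z := by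
    refine intervalIntegral.integral_mono_interval le_rfl (by nlinarith) ?_
      (ae_of_all _ fun z => (ng_bd τ z).1) (ng_ii _ _ _)
    rw [mul_comm]
    exact mul_le_mul_of_nonneg_left Kp_spec hZ0.le
  have h2 : ∑ i ∈ Finset.range Kp, ∫ z in (Z * (7 / 5) ^ i)..(Z * (7 / 5) ^ (i + 1)), ng τ z =
      ∫ z in Z..(Z * (7 / 5) ^ Kp), ng τ z := by
    have := intervalIntegral.sum_integral_adjacent_intervals (f := ng τ) (μ := volume)
      (a := fun i : ℕ => Z * (7 / 5) ^ i) (n := Kp) fun k _ => ng_ii _ _ _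
    simpa using this
  have h3 : ∀ i ∈ Finset.range Kp, P * ∫ z in (Z * (7 / 5) ^ i)..(Z * (7 / 5) ^ (i + 1)), ng τ z ≤
      (20 * A0 * (7 / 5) ^ Kp * x / H) ^ 2 * Df τ A1 x H := by
    intro i hi
    rw [Finset.mem_range] at hi
    have hqi := hq i
    have hz0 : 0 < Z * (7 / 5) ^ i := by positivity
    have hzz : Z * (7 / 5) ^ i ≤ Z * (7 / 5) ^ (i + 1) := by
      rw [pow_succ]; nlinarith
    have hiK : (7 / 5 : ℝ) ^ i ≤ (7 / 5) ^ Kp := pow_le_pow_right₀ (by norm_num) hi.le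
    have hziK : Z * (7 / 5) ^ i ≤ Z * (7 / 5) ^ Kp := mul_le_mul_of_nonneg_left hiK hZ0.le
    have hb := block (τ := τ) (A := A1) (x := x) (a := A0 * x) (z0 := Z * (7 / 5) ^ i)
      (z1 := Z * (7 / 5) ^ (i + 1)) (H := H) hτ hx hxa (by rw [hZ]; nlinarith) hzz
      (by rw [pow_succ]; linarith) hH hHx (by
        unfold A1
        have : 2 * (Z * (7 / 5) ^ i) ≤ 40 * A0 * (7 / 5) ^ Kp * x := by
          calc 2 * (Z * (7 / 5) ^ i) ≤ 2 * (Z * (7 / 5) ^ Kp) := by linarith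
            _ = _ := by rw [hZ]; ring
        linarith)
    have hle : P * ∫ z in (Z * (7 / 5) ^ i)..(Z * (7 / 5) ^ (i + 1)), ng τ z ≤
        ∫ y in x..(A0 * x), ∫ z in (Z * (7 / 5) ^ i)..(Z * (7 / 5) ^ (i + 1)),
          max (τ * (Fe y - Fe z)) 0 := by
      rw [hP, ← intervalIntegral.integral_mul_const]
      have hmz : Measurable (Function.uncurry fun y z : ℝ => max (τ * (Fe y - Fe z)) 0) := by
        unfold Function.uncurry
        exact (((Fe_meas.comp measurable_fst).sub (Fe_meas.comp measurable_snd)).const_mul τ).max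
          measurable_const
      have hbd : ∀ y ∈ Icc x (A0 * x), ∀ z ∈ Icc (Z * (7 / 5) ^ i) (Z * (7 / 5) ^ (i + 1)),
          |max (τ * (Fe y - Fe z)) 0| ≤ 8 * (A0 * x) + 8 * (Z * (7 / 5) ^ (i + 1)) := by
        intro y hy z hz
        rw [abs_of_nonneg (le_max_right _ _)]
        refine max_le ?_ (by positivity)
        refine (le_abs_self _).trans ?_
        rw [abs_mul, hτ, one_mul]
        refine (abs_sub _ _).trans ?_
        have h4 := Fe_abs (y := y) (by linarith [hy.1])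
        have h5 := Fe_abs (y := z) (by linarith [hz.1])
        linarith [hy.2, hz.2]
      refine intervalIntegral.integral_mono_on hxa ((pos_ii hx.le hxa hτ).mul_const _)
        (rect_left hxa hzz hmz fun y hy z hz => hbd y ⟨hy.1.le, hy.2⟩ z ⟨hz.1.le, hz.2⟩) fun y hy => ?_
      rw [← intervalIntegral.integral_const_mul]
      refine intervalIntegral.integral_mono_on hzz ((ng_ii _ _ _).const_mul _) ?_ fun z _ => pair_low
      rw [intervalIntegrable_iff_integrableOn_Ioc_of_le hzz]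
      refine Measure.integrableOn_of_bounded (M := 8 * (A0 * x) + 8 * (Z * (7 / 5) ^ (i + 1))) (by simp)
        (hmz.comp (measurable_const.prodMk measurable_id)).aestronglyMeasurable ?_
      exact (ae_restrict_mem measurableSet_Ioc).mono fun z hz => hbd y hy z ⟨hz.1.le, hz.2⟩
    refine hle.trans (hb.trans ?_)
    apply mul_le_mul_of_nonneg_right _ hD0
    apply pow_le_pow_left₀ (by positivity)
    apply div_le_div_of_nonneg_right _ hH.le
    calc Z * (7 / 5) ^ i ≤ Z * (7 / 5) ^ Kp := hziK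
      _ = 20 * A0 * (7 / 5) ^ Kp * x := by rw [hZ]; ring
  calc P * ∫ z in Z..(A0 * Z), ng τ z ≤ P * ∫ z in Z..(Z * (7 / 5) ^ Kp), ng τ z :=
        mul_le_mul_of_nonneg_left h1 hP0
    _ = ∑ i ∈ Finset.range Kp, P * ∫ z in (Z * (7 / 5) ^ i)..(Z * (7 / 5) ^ (i + 1)), ng τ z := by
        rw [← h2, Finset.mul_sum]
    _ ≤ ∑ i ∈ Finset.range Kp, (20 * A0 * (7 / 5) ^ Kp * x / H) ^ 2 * Df τ A1 x H :=
        Finset.sum_le_sum h3
    _ = _ := by rw [Finset.sum_const, Finset.card_range, nsmul_eq_mul]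

/-- the supremum of the real parts of the zeros -/
lemma sup_exists {β : ℝ} (hz : ∃ s : ℂ, riemannZeta s = 0 ∧ β < s.re) : ∃ Θ : ℝ, β < Θ ∧ Θ ≤ 1 ∧
    (∀ s : ℂ, Θ < s.re → riemannZeta s ≠ 0) ∧
    ∀ δ : ℝ, 0 < δ → ∃ s : ℂ, riemannZeta s = 0 ∧ Θ - δ < s.re := by
  obtain ⟨ρ, hρ0, hρ⟩ := hz
  set S : Set ℝ := {t | ∀ s : ℂ, t < s.re → riemannZeta s ≠ 0} with hS
  have h1 : (1 : ℝ) ∈ S := fun s hs => riemannZeta_ne_zero_of_one_le_re hs.le
  have hlow : ∀ t ∈ S, ρ.re ≤ t := by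
    intro t ht
    by_contra h
    exact ht ρ (not_le.1 h) hρ0
  have hbdd : BddBelow S := ⟨ρ.re, fun t ht => hlow t ht⟩
  refine ⟨sInf S, lt_of_lt_of_le hρ (le_csInf ⟨1, h1⟩ hlow), csInf_le hbdd h1, ?_, ?_⟩
  · intro s hs
    obtain ⟨t, ht, hts⟩ := exists_lt_of_csInf_lt ⟨1, h1⟩ hs
    exact ht s hts
  · intro δ hδ
    by_contra hcon
    push Not at hcon
    have h2 : sInf S - δ ∈ S := by
      intro s hs h0
      exact absurd (hcon s h0) (not_le.2 hs)
    have := csInf_le hbdd h2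
    linarith

lemma Fe_bound {Θ : ℝ} (h0 : 1 / 2 ≤ Θ) (hz : ∀ s : ℂ, Θ < s.re → riemannZeta s ≠ 0) {ε : ℝ}
    (hε : 0 < ε) : ∃ C : ℝ, 0 < C ∧ ∀ y : ℝ, 1 ≤ y → |Fe y| ≤ C * y ^ (Θ + ε) := by
  by_cases h1 : Θ < 1
  · obtain ⟨C, hC, h⟩ := Pool.Agent.W190.psi_of_free Θ h0 hz (min (Θ + ε) 1) (lt_min (by linarith) h1)
      (min_le_right _ _)
    refine ⟨C, hC, fun y hy => (h y hy).trans ?_⟩
    apply mul_le_mul_of_nonneg_left _ hC.le
    exact Real.rpow_le_rpow_of_exponent_le hy (min_le_left _ _)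
  · refine ⟨8, by norm_num, fun y hy => (Fe_abs (by linarith)).trans ?_⟩
    have h2 : y ^ (1 : ℝ) ≤ y ^ (Θ + ε) := Real.rpow_le_rpow_of_exponent_le hy (by linarith [not_lt.1 h1])
    rw [Real.rpow_one] at h2
    linarith

/-- **large mean deviations in both directions** -/
theorem dev_mean {β : ℝ} (hβ : 3 / 4 ≤ β) (hz : ∃ s : ℂ, riemannZeta s = 0 ∧ β < s.re) :
    ∀ᶠ x : ℝ in atTop, ∀ H : ℝ, 0 < H → H ≤ x → ∀ τ : ℝ, |τ| = 1 → H ^ 2 * x ^ β < Df τ A1 x H := by
  obtain ⟨Θ, hΘ1, hΘ2, hΘ3, hΘ4⟩ := sup_exists hz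
  set ε : ℝ := (Θ - β) / 4 with hε
  have hε0 : 0 < ε := by rw [hε]; linarith
  have hε1 : ε ≤ 1 / 16 := by rw [hε]; linarith
  set θ' : ℝ := Θ - ε with hθ'
  have hθ'1 : 3 / 4 < θ' := by rw [hθ', hε]; linarith
  obtain ⟨c, hc, hos⟩ := osc_mean_x hθ'1 (hΘ4 ε hε0)
  obtain ⟨C, hC, hF⟩ := Fe_bound (by linarith) hΘ3 hε0
  have hA0 := A0_ge
  have hA00 : 0 < A0 := by linarith
  -- the final constant
  set G : ℝ := Kp * (20 * A0 * (7 / 5) ^ Kp) ^ 2 with hG
  have hKp : (1 : ℝ) ≤ Kp := by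
    have : 1 ≤ Kp := by
      unfold Kp
      have : 0 < ⌈A0⌉₊ := Nat.ceil_pos.2 hA00
      omega
    exact_mod_cast this
  have hG0 : 0 < G := by positivity
  set c2 : ℝ := c / (C * A0 ^ (Θ + ε)) with hc2
  have hc20 : 0 < c2 := by positivity
  have hlim : Tendsto (fun x : ℝ => x ^ (Θ - 3 * ε - β)) atTop atTop :=
    tendsto_rpow_atTop (by rw [hε]; linarith)
  filter_upwards [hos, (tendsto_id.const_mul_atTop (show 0 < 20 * A0 by positivity)).eventually hos,
    hlim.eventually_gt_atTop (G / (c * c2)), eventually_ge_atTop 1] with x k1 k2 k3 hx1 H hH hHx τ hτ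
  have hx0 : 0 < x := by linarith
  simp only [id] at k2
  have h1 := k1 τ hτ
  have h2 := k2 (-τ) (by rw [abs_neg, hτ])
  set Z := 20 * A0 * x with hZ
  have hxZ : x ≤ Z := by rw [hZ]; nlinarith
  have hZ1 : 1 ≤ Z := hx1.trans hxZ
  have hZ0 : 0 < Z := by linarith
  have hp := product hτ hx0 hH hHx
  rw [← hZ] at hp
  set M := ∫ z in Z..(A0 * Z), ng τ z with hM
  -- the lower bound for M
  have hS : ∫ y in Z..(A0 * Z), max (-τ * Fe y) 0 ≤ C * (A0 * Z) ^ (Θ + ε) * M := by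
    rw [hM, ← intervalIntegral.integral_const_mul]
    refine intervalIntegral.integral_mono_on (by nlinarith)
      (pos_ii hZ0.le (by nlinarith) (by rw [abs_neg, hτ])) ((ng_ii _ _ _).const_mul _) fun y hy => ?_
    unfold ng
    split_ifs with h
    · rw [mul_one]
      refine max_le ?_ (by positivity)
      refine (le_abs_self _).trans ?_
      rw [abs_mul, abs_neg, hτ, one_mul]
      refine (hF y (hZ1.trans hy.1)).trans ?_
      apply mul_le_mul_of_nonneg_left _ hC.le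
      exact Real.rpow_le_rpow (by linarith [hy.1]) hy.2 (by linarith)
    · rw [mul_zero]
      refine max_le ?_ le_rfl
      linarith [not_lt.1 h]
  have hM1 : c2 * x ^ (1 - 2 * ε) ≤ M := by
    have h3 := h2.trans hS
    rw [Real.mul_rpow hA00.le hZ0.le] at h3
    have hZp : 0 < Z ^ (Θ + ε) := Real.rpow_pos_of_pos hZ0 _
    have e1 : Z ^ (1 + θ') = Z ^ (1 - 2 * ε) * Z ^ (Θ + ε) := by
      rw [← Real.rpow_add hZ0, hθ']; ring_nf
    rw [e1] at h3
    have h4 : c * Z ^ (1 - 2 * ε) ≤ C * A0 ^ (Θ + ε) * M := by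
      have h5 : (c * Z ^ (1 - 2 * ε)) * Z ^ (Θ + ε) ≤ (C * A0 ^ (Θ + ε) * M) * Z ^ (Θ + ε) := by
        calc _ = c * (Z ^ (1 - 2 * ε) * Z ^ (Θ + ε)) := by ring
          _ ≤ _ := h3
          _ = _ := by ring
      exact le_of_mul_le_mul_right h5 hZp
    have h6 : x ^ (1 - 2 * ε) ≤ Z ^ (1 - 2 * ε) := Real.rpow_le_rpow hx0.le hxZ (by linarith)
    rw [hc2, div_mul_eq_mul_div, div_le_iff₀ (by positivity)]
    have h7 := mul_le_mul_of_nonneg_left h6 hc.le
    linarith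
  set P := ∫ y in x..(A0 * x), max (τ * Fe y) 0 with hP
  have hM0 : 0 ≤ M := le_trans (by positivity) hM1
  have h8 : (c * x ^ (1 + θ')) * (c2 * x ^ (1 - 2 * ε)) ≤ P * M :=
    mul_le_mul h1 hM1 (by positivity) (le_trans (by positivity) h1)
  have h9 := h8.trans hp
  have e2 : (c * x ^ (1 + θ')) * (c2 * x ^ (1 - 2 * ε)) = c * c2 * (x ^ (Θ - 3 * ε - β) * x ^ β * x ^ 2) := by
    have : x ^ (1 + θ') * x ^ (1 - 2 * ε) = x ^ (Θ - 3 * ε - β) * x ^ β * x ^ 2 := by
      rw [← Real.rpow_add hx0, ← Real.rpow_natCast x 2, ← Real.rpow_add hx0, ← Real.rpow_add hx0, hθ']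
      congr 1
      push_cast
      ring
    rw [← this]; ring
  have e3 : Kp * ((20 * A0 * (7 / 5) ^ Kp * x / H) ^ 2 * Df τ A1 x H) =
      G * (x ^ 2 / H ^ 2 * Df τ A1 x H) := by
    rw [hG]; ring
  rw [e2, e3] at h9
  have hcc : 0 < c * c2 := by positivity
  have h10 : G < c * c2 * x ^ (Θ - 3 * ε - β) := by
    rw [div_lt_iff₀ hcc] at k3
    linarith
  have hxb : 0 < x ^ β * x ^ 2 := by positivity
  have h11 : G * (x ^ β * x ^ 2) < G * (x ^ 2 / H ^ 2 * Df τ A1 x H) := by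
    calc G * (x ^ β * x ^ 2) < (c * c2 * x ^ (Θ - 3 * ε - β)) * (x ^ β * x ^ 2) :=
          mul_lt_mul_of_pos_right h10 hxb
      _ = c * c2 * (x ^ (Θ - 3 * ε - β) * x ^ β * x ^ 2) := by ring
      _ ≤ _ := h9
  have h12 := lt_of_mul_lt_mul_left h11 hG0.le
  have h13 : x ^ 2 * x ^ β < x ^ 2 * (Df τ A1 x H / H ^ 2) := by
    calc x ^ 2 * x ^ β = x ^ β * x ^ 2 := by ring
      _ < _ := h12
      _ = _ := by ring
  have h14 := lt_of_mul_lt_mul_left h13 (by positivity)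
  rw [lt_div_iff₀ (by positivity)] at h14
  linarith

end Pool.Agent.Q260.OS
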