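import Pool.Agent.Q260.OS.I

set_option autoImplicit false

/-!
# The criteria
-/

namespace Pool.Agent.Q260.OS

open MeasureTheory Filter Topology Set

/-- the mean one-sided condition at arbitrarily large `x` -/
def MeanOne (A τ β : ℝ) : Prop :=
  ∃ᶠ x : ℝ in atTop, ∃ H : ℝ, 0 < H ∧ H ≤ x ∧ Df τ A x H ≤ H ^ 2 * x ^ β

lemma mfree_of {θ τ : ℝ} (hθ : 3 / 4 ≤ θ) (hτ : |τ| = 1) (h : MeanOne A1 τ θ) :
    ∀ s : ℂ, θ < s.re → riemannZeta s ≠ 0 := by
  intro s hs h0
  have hd := dev_mean hθ ⟨s, h0, hs⟩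
  obtain ⟨x, ⟨H, hH, hHx, h1⟩, h2⟩ := (h.and_eventually hd).exists
  exact absurd h1 (not_le.2 (h2 H hH hHx τ hτ))

lemma mfree_of_all {θ τ : ℝ} (hθ : 3 / 4 ≤ θ) (hτ : |τ| = 1)
    (h : ∀ ε : ℝ, 0 < ε → MeanOne A1 τ (θ + ε)) : ∀ s : ℂ, θ < s.re → riemannZeta s ≠ 0 := by
  intro s hs
  exact mfree_of (θ := θ + (s.re - θ) / 2) (by linarith) hτ (h _ (by linarith)) s (by linarith)

/-- the two-sided pointwise condition -/
def Strong (A β : ℝ) : Prop := ∀ᶠ x : ℝ in atTop, ∀ y ∈ Icc x (A * x), ∀ h : ℝ, 0 < h → h ≤ x →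
  |Chebyshev.psi (y + h) - Chebyshev.psi y - h| ≤ x ^ β

lemma mean_of_strong {A β ε τ : ℝ} (hA : 1 < A) (hε : 0 < ε) (hτ : |τ| = 1) (h : Strong A β) :
    MeanOne A τ (β + ε) := by
  have hlim : Tendsto (fun x : ℝ => x ^ ε) atTop atTop := tendsto_rpow_atTop hε
  refine Eventually.frequently ?_
  filter_upwards [h, hlim.eventually_ge_atTop (2 * (A - 1)), eventually_ge_atTop 1] with x hx hx2 hx1
  have hx0 : 0 < x := by linarith
  refine ⟨x / 2, by positivity, by linarith, ?_⟩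
  have hAx : x ≤ A * x := by nlinarith
  have p : 0 < x ^ β := Real.rpow_pos_of_pos hx0 _
  have hb : ∀ h' ∈ Icc (x / 2) (2 * (x / 2)), ∀ y ∈ Icc x (A * x), |de τ y h'| ≤ x ^ β := by
    intro h' hh y hy
    rw [abs_of_nonneg (de_nonneg _ _ _)]
    unfold de
    refine max_le ?_ p.le
    refine (le_abs_self _).trans ?_
    rw [abs_mul, hτ, one_mul]
    have h1 := hx y hy h' (by linarith [hh.1]) (by linarith [hh.2])
    have e : |Fe y - Fe (y + h')| = |Chebyshev.psi (y + h') - Chebyshev.psi y - h'| := by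
      unfold Fe
      rw [← abs_neg]
      congr 1
      ring
    rw [e]
    exact h1
  have h1 : ‖Df τ A x (x / 2)‖ ≤ (x ^ β * |A * x - x|) * |2 * (x / 2) - x / 2| := by
    unfold Df
    refine intervalIntegral.norm_integral_le_of_norm_le_const fun h' hh => ?_
    rw [uIoc_of_le (by linarith)] at hh
    refine intervalIntegral.norm_integral_le_of_norm_le_const fun y hy => ?_
    rw [uIoc_of_le hAx] at hy
    exact hb h' ⟨hh.1.le, hh.2⟩ y ⟨hy.1.le, hy.2⟩
  rw [abs_of_nonneg (by linarith), abs_of_nonneg (by linarith)] at h1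
  refine (le_abs_self _).trans (h1.trans ?_)
  have e1 : x ^ (β + ε) = x ^ β * x ^ ε := Real.rpow_add hx0 _ _
  rw [e1]
  have e2 : x ^ β * (A * x - x) * (2 * (x / 2) - x / 2) = x ^ β * x ^ 2 / 4 * (2 * (A - 1)) := by ring
  have e3 : (x / 2) ^ 2 * (x ^ β * x ^ ε) = x ^ β * x ^ 2 / 4 * x ^ ε := by ring
  rw [e2, e3]
  exact mul_le_mul_of_nonneg_left hx2 (by positivity)

lemma Df_one (A x H : ℝ) : Df 1 A x H = ∫ h in H..(2 * H), ∫ y in x..(A * x),
    max (h - (Chebyshev.psi (y + h) - Chebyshev.psi y)) 0 := by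
  unfold Df de Fe
  refine intervalIntegral.integral_congr fun h _ => intervalIntegral.integral_congr fun y _ => ?_
  show max (1 * (Chebyshev.psi y - y - (Chebyshev.psi (y + h) - (y + h)))) 0 =
    max (h - (Chebyshev.psi (y + h) - Chebyshev.psi y)) 0
  congr 1
  ring

lemma Df_neg (A x H : ℝ) : Df (-1) A x H = ∫ h in H..(2 * H), ∫ y in x..(A * x),
    max (Chebyshev.psi (y + h) - Chebyshev.psi y - h) 0 := by
  unfold Df de Fe
  refine intervalIntegral.integral_congr fun h _ => intervalIntegral.integral_congr fun y _ => ?_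
  show max (-1 * (Chebyshev.psi y - y - (Chebyshev.psi (y + h) - (y + h)))) 0 =
    max (Chebyshev.psi (y + h) - Chebyshev.psi y - h) 0
  congr 1
  ring

/-- **the criteria for each half-plane** -/
theorem crit {θ : ℝ} (hθ : 3 / 4 ≤ θ) : List.TFAE [
      ∀ s : ℂ, θ < s.re → riemannZeta s ≠ 0,
      ∀ ε : ℝ, 0 < ε → Strong A1 (θ + ε),
      ∀ ε : ℝ, 0 < ε → MeanOne A1 1 (θ + ε),
      ∀ ε : ℝ, 0 < ε → MeanOne A1 (-1) (θ + ε)] := by
  have hm1 : |(-1 : ℝ)| = 1 := by simp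
  tfae_have 1 → 2 := fun h ε hε => two_sided (by linarith) h A1 A1_gt hε
  tfae_have 2 → 3 := fun h ε hε => by
    have := mean_of_strong A1_gt (half_pos hε) abs_one (h (ε / 2) (half_pos hε))
    rwa [add_assoc, add_halves] at this
  tfae_have 2 → 4 := fun h ε hε => by
    have := mean_of_strong A1_gt (half_pos hε) hm1 (h (ε / 2) (half_pos hε))
    rwa [add_assoc, add_halves] at this
  tfae_have 3 → 1 := fun h => mfree_of_all hθ abs_one h
  tfae_have 4 → 1 := fun h => mfree_of_all hθ hm1 h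
  tfae_finish

/-- **the criteria for the existence of a zero-free half-plane** -/
theorem crit_any : List.TFAE [
      ∃ σ₀ : ℝ, 1 / 2 < σ₀ ∧ σ₀ < 1 ∧ ∀ s : ℂ, σ₀ ≤ s.re → riemannZeta s ≠ 0,
      ∃ η : ℝ, 0 < η ∧ ∀ᶠ x : ℝ in atTop, ∀ H : ℝ, x ^ (1 - η) ≤ H → H ≤ x → ∀ y ∈ Icc x (A1 * x),
        |Chebyshev.psi (y + H) - Chebyshev.psi y - H| ≤ H * x ^ (-η),
      ∃ η : ℝ, 0 < η ∧ MeanOne A1 1 (1 - η),
      ∃ η : ℝ, 0 < η ∧ MeanOne A1 (-1) (1 - η)] := by
  have hm1 : |(-1 : ℝ)| = 1 := by simp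
  have key : ∀ τ : ℝ, |τ| = 1 → (∃ η : ℝ, 0 < η ∧ MeanOne A1 τ (1 - η)) →
      ∃ σ₀ : ℝ, 1 / 2 < σ₀ ∧ σ₀ < 1 ∧ ∀ s : ℂ, σ₀ ≤ s.re → riemannZeta s ≠ 0 := by
    rintro τ hτ ⟨η, hη, h⟩
    set η' : ℝ := min η (1 / 4) with hη'
    have h1 : 0 < η' := lt_min hη (by norm_num)
    have h2 : η' ≤ 1 / 4 := min_le_right _ _
    have h3 : η' ≤ η := min_le_left _ _
    have h4 : MeanOne A1 τ (1 - η') := by
      refine (h.and_eventually (eventually_ge_atTop 1)).mono fun x => ?_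
      rintro ⟨⟨H, h6, h7, h8⟩, hx1⟩
      refine ⟨H, h6, h7, h8.trans ?_⟩
      apply mul_le_mul_of_nonneg_left _ (sq_nonneg _)
      exact Real.rpow_le_rpow_of_exponent_le hx1 (by linarith)
    have h5 := mfree_of (by linarith) hτ h4
    exact ⟨1 - η' / 2, by linarith, by linarith, fun s hs => h5 s (by linarith)⟩
  have fwd : ∀ τ : ℝ, |τ| = 1 → (∃ σ₀ : ℝ, 1 / 2 < σ₀ ∧ σ₀ < 1 ∧ ∀ s : ℂ, σ₀ ≤ s.re → riemannZeta s ≠ 0) →
      ∃ η : ℝ, 0 < η ∧ MeanOne A1 τ (1 - η) := by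
    rintro τ hτ ⟨σ0, h1, h2, h3⟩
    have h4 : Strong A1 (σ0 + (1 - σ0) / 3) :=
      two_sided (by linarith) (fun s hs => h3 s hs.le) A1 A1_gt (by linarith)
    have h5 := mean_of_strong A1_gt (show 0 < (1 - σ0) / 3 by linarith) hτ h4
    refine ⟨(1 - σ0) / 3, by linarith, ?_⟩
    have e : σ0 + (1 - σ0) / 3 + (1 - σ0) / 3 = 1 - (1 - σ0) / 3 := by ring
    rwa [e] at h5
  tfae_have 1 → 2 := by
    rintro ⟨σ0, h1, h2, h3⟩
    have h4 : Strong A1 (σ0 + (1 - σ0) / 3) :=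
      two_sided (by linarith) (fun s hs => h3 s hs.le) A1 A1_gt (by linarith)
    refine ⟨(1 - σ0) / 3, by linarith, ?_⟩
    filter_upwards [h4, eventually_ge_atTop 1] with x hx hx1 H hH hHx y hy
    have hx0 : 0 < x := by linarith
    have hH0 : 0 < H := lt_of_lt_of_le (Real.rpow_pos_of_pos hx0 _) hH
    refine (hx y hy H hH0 hHx).trans ?_
    have h5 : x ^ (1 - (1 - σ0) / 3) * x ^ (-((1 - σ0) / 3)) ≤ H * x ^ (-((1 - σ0) / 3)) :=
      mul_le_mul_of_nonneg_right hH (Real.rpow_pos_of_pos hx0 _).le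
    rw [← Real.rpow_add hx0] at h5
    have e : 1 - (1 - σ0) / 3 + -((1 - σ0) / 3) = σ0 + (1 - σ0) / 3 := by ring
    rwa [e] at h5
  tfae_have 2 → 3 := by
    rintro ⟨η, hη, h⟩
    -- only intervals of length between x/2 and x are used
    have hlim : Tendsto (fun x : ℝ => x ^ (η / 2)) atTop atTop := tendsto_rpow_atTop (by linarith)
    have hlim2 : Tendsto (fun x : ℝ => x ^ η) atTop atTop := tendsto_rpow_atTop hη
    refine ⟨η / 2, by linarith, Eventually.frequently ?_⟩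
    filter_upwards [h, hlim.eventually_ge_atTop (8 * A1), hlim2.eventually_ge_atTop 2,
      eventually_ge_atTop 1] with x hx hx2 hx3 hx1
    have hx0 : 0 < x := by linarith
    have hA := A1_gt
    refine ⟨x / 2, by positivity, by linarith, ?_⟩
    have hAx : x ≤ A1 * x := by nlinarith
    have p : 0 < x ^ (-η) := Real.rpow_pos_of_pos hx0 _
    have hxη : x ^ (1 - η) ≤ x / 2 := by
      rw [le_div_iff₀ (by norm_num : (0 : ℝ) < 2)]
      have e : x ^ (1 - η) * x ^ η = x := by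
        rw [← Real.rpow_add hx0]; simp
      have p2 : 0 < x ^ (1 - η) := Real.rpow_pos_of_pos hx0 _
      calc x ^ (1 - η) * 2 ≤ x ^ (1 - η) * x ^ η := mul_le_mul_of_nonneg_left hx3 p2.le
        _ = x := e
    have hb : ∀ h' ∈ Icc (x / 2) (2 * (x / 2)), ∀ y ∈ Icc x (A1 * x), |de 1 y h'| ≤ x * x ^ (-η) := by
      intro h' hh y hy
      rw [abs_of_nonneg (de_nonneg _ _ _)]
      unfold de
      refine max_le ?_ (by positivity)
      refine (le_abs_self _).trans ?_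
      rw [abs_mul, abs_one, one_mul]
      have h1 := hx h' (by linarith [hh.1]) (by linarith [hh.2]) y hy
      have e : |Fe y - Fe (y + h')| = |Chebyshev.psi (y + h') - Chebyshev.psi y - h'| := by
        unfold Fe
        rw [← abs_neg]
        congr 1
        ring
      rw [e]
      refine h1.trans (mul_le_mul_of_nonneg_right (by linarith [hh.2]) p.le)
    have h1 : ‖Df 1 A1 x (x / 2)‖ ≤ ((x * x ^ (-η)) * |A1 * x - x|) * |2 * (x / 2) - x / 2| := by
      unfold Df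
      refine intervalIntegral.norm_integral_le_of_norm_le_const fun h' hh => ?_
      rw [uIoc_of_le (by linarith)] at hh
      refine intervalIntegral.norm_integral_le_of_norm_le_const fun y hy => ?_
      rw [uIoc_of_le hAx] at hy
      exact hb h' ⟨hh.1.le, hh.2⟩ y ⟨hy.1.le, hy.2⟩
    rw [abs_of_nonneg (by linarith), abs_of_nonneg (by linarith)] at h1
    refine (le_abs_self _).trans (h1.trans ?_)
    have e1 : x ^ (1 - η / 2) = x * x ^ (-η) * x ^ (η / 2) := by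
      nth_rewrite 2 [← Real.rpow_one x]
      rw [← Real.rpow_add hx0, ← Real.rpow_add hx0]; ring_nf
    rw [e1]
    have q : 0 < x * x ^ (-η) := by positivity
    calc x * x ^ (-η) * (A1 * x - x) * (2 * (x / 2) - x / 2) =
          (x * x ^ (-η)) * (x ^ 2 / 4) * (2 * (A1 - 1)) := by ring
      _ ≤ (x * x ^ (-η)) * (x ^ 2 / 4) * x ^ (η / 2) := by
          apply mul_le_mul_of_nonneg_left _ (by positivity)
          linarith
      _ = _ := by ring
  tfae_have 3 → 1 := key 1 abs_one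
  tfae_have 1 → 4 := fwd (-1) hm1
  tfae_have 4 → 1 := key (-1) hm1
  tfae_finish

end Pool.Agent.Q260.OS
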